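import Pool.Agent.TH220.NT.Asym
import Pool.Agent.W259.GP.Main
import Pool.Agent.W259.GP.Fin
import Pool.Agent.W259.GP.Num

/-! Numerical values (for MP_dbfdb2_gt). -/

open Filter Set
open scoped Topology
open Pool.Agent.H818R2

namespace Pool.Agent.TH220.NT

theorem G_le {v : ℝ} (hv : 0 < v) {a b : ℕ} (ha : 0 < a) (h : (1 / v) ^ a ≤ 2 ^ b) :
    G v ≤ (1 + v) * v + v * (b / a) * Real.log 2 := by
  have h1 : Real.log (1 + v) ≤ v := by
    have := Real.log_le_sub_one_of_pos (x := 1 + v) (by linarith)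
    linarith
  have h2 := Real.log_le_log (by positivity) h
  rw [Real.log_pow, Real.log_pow, one_div, Real.log_inv] at h2
  have ha' : (0 : ℝ) < a := by exact_mod_cast ha
  have h3 : -Real.log v ≤ b / a * Real.log 2 := by
    rw [div_mul_eq_mul_div, le_div_iff₀ ha']
    linarith
  have h4 : (1 + v) * Real.log (1 + v) ≤ (1 + v) * v := mul_le_mul_of_nonneg_left h1 (by linarith)
  have h5 : v * (-Real.log v) ≤ v * (b / a * Real.log 2) := mul_le_mul_of_nonneg_left h3 hv.le
  unfold G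
  linarith

theorem fin_num {α β : ℝ} (hα : 1 ≤ α) (hαβ : α < β) {k J m : ℕ} (hk : 1 ≤ k) (hJ : 1 ≤ J)
    (hm : β ^ 2 < (m + 1) * (β ^ 2 - (2 * α ^ 2 - 1 + 1 / k)))
    (v : ℕ → ℝ) {v0 : ℝ}
    (hv : ∀ i ∈ Finset.Ico 1 k, 0 < v i ∧
      cosB α β i ^ 2 * (1 + 2 * v i) ^ 2 < 4 * v i * (1 + v i))
    (hv0 : 0 < v0) (hv0' : cosB α 1 J ^ 2 * (1 + 2 * v0) ^ 2 < 4 * v0 * (1 + v0)) {δ : ℝ}
    (hγ : ∑ i ∈ Finset.Ico 1 k, G (v i) + m * G v0 < Real.log β - δ * Real.log 2) :
    ∀ᶠ n : ℕ in atTop, ∀ (X : Set (EuclideanSpace ℝ (Fin n))) (r : ℝ) (κ : ℕ), IsPacking X r →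
      upperDensity (fewNear X r α β κ) r ≤ (κ + 1) * (2 : ℝ) ^ (-(δ * n)) * rho n := by
  have hβ : 0 < β := by linarith
  filter_upwards [D_asym hα v hv hv0 hv0' hγ] with n hn X r κ hX
  have h1 := few_le hα hαβ hk (fun Q hQ => clique_gen hα hJ Q hQ) hm hX κ
  have hrho : 0 ≤ rho n := optDensity_nonneg
  refine h1.trans ?_
  apply mul_le_mul_of_nonneg_right _ hrho
  rw [mul_assoc]
  apply mul_le_mul_of_nonneg_left _ (by positivity)
  have h2 : (1 / β) ^ n = Real.exp (n * (-Real.log β)) := by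
    rw [Real.exp_nat_mul, Real.exp_neg, Real.exp_log hβ, one_div]
  have h3 : (2 : ℝ) ^ (-(δ * n)) = Real.exp (n * (-(δ * Real.log 2))) := by
    rw [Real.rpow_def_of_pos two_pos]
    congr 1
    ring
  rw [h2, h3]
  calc _ ≤ Real.exp (n * (Real.log β - δ * Real.log 2)) * Real.exp (n * (-Real.log β)) :=
        mul_le_mul_of_nonneg_right hn (Real.exp_pos _).le
    _ = _ := by rw [← Real.exp_add]; congr 1; ring

theorem log_six_five : 31 / 118 * Real.log 2 ≤ Real.log (6 / 5) := by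
  have h : (2 : ℝ) ^ 31 ≤ (6 / 5) ^ 118 := by norm_num
  have h2 := Real.log_le_log (by positivity) h
  rw [Real.log_pow, Real.log_pow] at h2
  push_cast at h2
  linarith

theorem log_seven_six : 2 / 9 * Real.log 2 ≤ Real.log (7 / 6) := by
  have h : (2 : ℝ) ^ 2 ≤ (7 / 6) ^ 9 := by norm_num
  have h2 := Real.log_le_log (by positivity) h
  rw [Real.log_pow, Real.log_pow] at h2
  push_cast at h2
  linarith

theorem num_B : ∀ᶠ n : ℕ in atTop, ∀ (X : Set (EuclideanSpace ℝ (Fin n))) (r : ℝ) (κ : ℕ),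
    IsPacking X r →
    upperDensity (fewNear X r (201 / 200) (6 / 5) κ) r ≤
      (κ + 1) * (2 : ℝ) ^ (-(1 / 20 * n : ℝ)) * rho n := by
  apply fin_num (k := 3) (J := 100) (m := 16) (by norm_num) (by norm_num) (by norm_num)
    (by norm_num) (by norm_num) (fun i => if i = 1 then 22 / 1000 else 7 / 10000)
    (v0 := 22 / 100000)
  · intro i hi
    rw [Finset.mem_Ico] at hi
    obtain rfl | rfl : i = 1 ∨ i = 2 := by omega
    · unfold cosB; norm_num
    · unfold cosB; norm_num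
  · norm_num
  · unfold cosB; norm_num
  · have e : ∑ i ∈ Finset.Ico 1 3, G ((fun i => if i = 1 then (22 / 1000 : ℝ) else 7 / 10000) i)
        = G (22 / 1000) + G (7 / 10000) := by
      rw [Finset.sum_Ico_succ_top (by norm_num), Finset.sum_Ico_succ_top (by norm_num)]
      simp
    rw [e]
    have h1 := G_le (v := 22 / 1000) (by norm_num) (a := 45) (b := 248) (by norm_num)
      (by norm_num)
    have h2 := G_le (v := 7 / 10000) (by norm_num) (a := 2) (b := 21) (by norm_num) (by norm_num)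
    have h3 := G_le (v := 22 / 100000) (by norm_num) (a := 5) (b := 61) (by norm_num)
      (by norm_num)
    have h4 := log_six_five
    have h5 := Real.log_two_gt_d9
    push_cast at h1 h2 h3 ⊢
    linarith

theorem num_C : ∀ᶠ n : ℕ in atTop, ∀ (X : Set (EuclideanSpace ℝ (Fin n))) (r : ℝ) (κ : ℕ),
    IsPacking X r →
    upperDensity (fewNear X r (1001 / 1000) (7 / 6) κ) r ≤
      (κ + 1) * (2 : ℝ) ^ (-(1 / 200 * n : ℝ)) * rho n := by
  apply fin_num (k := 3) (J := 1000) (m := 57) (by norm_num) (by norm_num) (by norm_num)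
    (by norm_num) (by norm_num) (fun i => if i = 1 then 28 / 1000 else 23 / 10000)
    (v0 := 1 / 160000)
  · intro i hi
    rw [Finset.mem_Ico] at hi
    obtain rfl | rfl : i = 1 ∨ i = 2 := by omega
    · unfold cosB; norm_num
    · unfold cosB; norm_num
  · norm_num
  · unfold cosB; norm_num
  · have e : ∑ i ∈ Finset.Ico 1 3, G ((fun i => if i = 1 then (28 / 1000 : ℝ) else 23 / 10000) i)
        = G (28 / 1000) + G (23 / 10000) := by
      rw [Finset.sum_Ico_succ_top (by norm_num), Finset.sum_Ico_succ_top (by norm_num)]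
      simp
    rw [e]
    have h1 := G_le (v := 28 / 1000) (by norm_num) (a := 25) (b := 129) (by norm_num)
      (by norm_num)
    have h2 := G_le (v := 23 / 10000) (by norm_num) (a := 5) (b := 44) (by norm_num) (by norm_num)
    have h3 := G_le (v := 1 / 160000) (by norm_num) (a := 1) (b := 18) (by norm_num)
      (by norm_num)
    have h4 := log_seven_six
    have h5 := Real.log_two_gt_d9
    push_cast at h1 h2 h3 ⊢
    linarith

theorem num_A : ∀ᶠ n : ℕ in atTop, ∀ (X : Set (EuclideanSpace ℝ (Fin n))) (r : ℝ) (κ : ℕ),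
    IsPacking X r →
    upperDensity (fewNear X r (201 / 200) (√2) κ) r ≤
      (κ + 1) * (2 : ℝ) ^ (-(4868 / 10000 * n : ℝ)) * rho n := by
  have h2 : (√2 : ℝ) ^ 2 = 2 := Real.sq_sqrt (by norm_num)
  have hlog : Real.log (√2) = 1 / 2 * Real.log 2 := by
    rw [Real.log_sqrt (by norm_num)]; ring
  apply fin_num (k := 2) (J := 100) (m := 4) (by norm_num) _ (by norm_num)
    (by norm_num) _ (fun _ => 1 / 40000) (v0 := 22 / 100000)
  · intro i hi
    rw [Finset.mem_Ico] at hi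
    obtain rfl : i = 1 := by omega
    unfold cosB
    rw [h2]
    norm_num
  · norm_num
  · unfold cosB; norm_num
  · have e : ∑ i ∈ Finset.Ico 1 2, G ((fun (_ : ℕ) => (1 / 40000 : ℝ)) i) = G (1 / 40000) := by
      rw [Finset.sum_Ico_succ_top (by norm_num)]
      simp
    rw [e, hlog]
    have h1 := G_le (v := 1 / 40000) (by norm_num) (a := 1) (b := 16) (by norm_num)
      (by norm_num)
    have h3 := G_le (v := 22 / 100000) (by norm_num) (a := 5) (b := 61) (by norm_num)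
      (by norm_num)
    have h5 := Real.log_two_gt_d9
    push_cast at h1 h3 ⊢
    linarith
  · apply Real.lt_sqrt_of_sq_lt
    norm_num
  · rw [h2]
    norm_num

/-- the upper bound `2 ^ (-0.6044 n)` of the optimal density -/
theorem rho_num {c : ℝ} (hc : c ≤ 6044 / 10000) : ∀ᶠ n : ℕ in atTop,
    rho n ≤ (2 : ℝ) ^ (-(c * n : ℝ)) := by
  have hn := Pool.Agent.W259.GP.num_bound
  have hlog : 0 < Real.log 2 := Real.log_pos (by norm_num)
  have hcst : 6044 / 10000 * Real.log 2 < Pool.Agent.W259.GP.cst := by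
    unfold Pool.Agent.W259.GP.cst
    unfold Real.logb at hn
    rw [← lt_div_iff₀ hlog]
    refine hn.trans_le (le_of_eq ?_)
    ring
  obtain ⟨n0, hn0⟩ := Pool.Agent.W259.GP.rho_bound Pool.Agent.W259.GP.s_main
    (Pool.Agent.W259.GP.cst - 6044 / 10000 * Real.log 2) (by linarith)
  filter_upwards [eventually_ge_atTop n0] with n hn'
  refine (hn0 n hn').trans ?_
  rw [Real.rpow_def_of_pos two_pos]
  apply Real.exp_le_exp.2
  have : c * Real.log 2 ≤ 6044 / 10000 * Real.log 2 := mul_le_mul_of_nonneg_right hc hlog.le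
  have hnn : (0 : ℝ) ≤ n := Nat.cast_nonneg n
  nlinarith

theorem num_A' : ∀ᶠ n : ℕ in atTop, ∀ (X : Set (EuclideanSpace ℝ (Fin n))) (r : ℝ) (κ : ℕ),
    IsPacking X r →
    upperDensity (fewNear X r (201 / 200) (√2) κ) r ≤
      (κ + 1) * (2 : ℝ) ^ (-(109 / 100 * n : ℝ)) := by
  filter_upwards [num_A, rho_num (c := 6044 / 10000) le_rfl] with n h1 h2 X r κ hX
  refine (h1 X r κ hX).trans ?_
  rw [mul_assoc]
  apply mul_le_mul_of_nonneg_left _ (by positivity)
  calc (2 : ℝ) ^ (-(4868 / 10000 * n : ℝ)) * rho n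
      ≤ (2 : ℝ) ^ (-(4868 / 10000 * n : ℝ)) * (2 : ℝ) ^ (-(6044 / 10000 * n : ℝ)) :=
        mul_le_mul_of_nonneg_left h2 (by positivity)
    _ = (2 : ℝ) ^ (-(10912 / 10000 * n : ℝ)) := by
        rw [← Real.rpow_add two_pos]
        congr 1
        ring
    _ ≤ _ := by
        apply Real.rpow_le_rpow_of_exponent_le (by norm_num)
        have hnn : (0 : ℝ) ≤ n := Nat.cast_nonneg n
        linarith

/-- the touching case with `β = √2`, for every dimension -/
theorem touch {n : ℕ} {X : Set (EuclideanSpace ℝ (Fin n))} {r : ℝ} (hX : IsPacking X r) (κ : ℕ) :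
    upperDensity (fewNear X r 1 (√2) κ) r ≤
      (κ + 1) * (4 * (n + 1) * (n + 5).choose 4) * (2 : ℝ) ^ (-(n : ℝ) / 2) * rho n := by
  have h2 : (√2 : ℝ) ^ 2 = 2 := Real.sq_sqrt (by norm_num)
  have h1 := few_le (α := 1) (β := √2) (k := 2) (a := n + 1) (m := 4) le_rfl
    (Real.lt_sqrt_of_sq_lt (by norm_num)) (by norm_num) (fun Q hQ => clique_one Q hQ)
    (by rw [h2]; norm_num) hX κ
  have hrho : 0 ≤ rho n := optDensity_nonneg
  refine h1.trans ?_
  apply mul_le_mul_of_nonneg_right _ hrho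
  have e1 : (1 / √2 : ℝ) ^ n = (2 : ℝ) ^ (-(n : ℝ) / 2) := by
    rw [one_div, inv_pow, Real.sqrt_eq_rpow, ← Real.rpow_natCast, ← Real.rpow_mul (by norm_num),
      ← Real.rpow_neg (by norm_num)]
    congr 1
    ring
  rw [e1]
  apply mul_le_mul_of_nonneg_right _ (by positivity)
  apply mul_le_mul_of_nonneg_left _ (by positivity)
  have e2 : ∏ i ∈ Finset.Ico 1 2, 2 * codeMax (n + 1) (cosB 1 (√2) i)
      = 2 * codeMax (n + 1) 0 := by
    rw [Finset.prod_Ico_succ_top (by norm_num)]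
    simp only [Finset.Ico_self, Finset.prod_empty, one_mul]
    congr 2
    unfold cosB
    rw [h2]
    norm_num
  rw [e2]
  have e3 := codeMax_zero (n + 1)
  have e4 : (n + 1 + 4).choose (n + 1) = (n + 5).choose 4 := by
    rw [Nat.choose_symm_add]
  rw [e4]
  have e5 : 2 * codeMax (n + 1) 0 * (n + 5).choose 4 ≤ 4 * (n + 1) * (n + 5).choose 4 := by
    apply Nat.mul_le_mul_right
    omega
  calc ((2 * codeMax (n + 1) 0 * (n + 5).choose 4 : ℕ) : ℝ)
      ≤ ((4 * (n + 1) * (n + 5).choose 4 : ℕ) : ℝ) := by exact_mod_cast e5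
    _ = _ := by push_cast; ring

/-- a polynomial factor is absorbed -/
theorem poly_le {ε : ℝ} (hε : 0 < ε) :
    ∀ᶠ n : ℕ in atTop, (4 * (n + 1) * (n + 5).choose 4 : ℝ) ≤ (2 : ℝ) ^ (ε * n) := by
  have hlog : 0 < Real.log 2 := Real.log_pos (by norm_num)
  have h1 : Tendsto (fun n : ℕ => ((n : ℝ) + 5) ^ 5 / Real.exp (ε * Real.log 2 * (n + 5))) atTop
      (𝓝 0) := by
    have h2 := Real.tendsto_pow_mul_exp_neg_atTop_nhds_zero 5
    have h3 : Tendsto (fun n : ℕ => ε * Real.log 2 * ((n : ℝ) + 5)) atTop atTop := by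
      apply Tendsto.const_mul_atTop (by positivity)
      exact tendsto_atTop_add_const_right _ _ tendsto_natCast_atTop_atTop
    have h4 := (h2.comp h3).const_mul ((ε * Real.log 2) ^ 5)⁻¹
    rw [mul_zero] at h4
    refine h4.congr (fun n => ?_)
    simp only [Function.comp]
    rw [Real.exp_neg]
    field_simp
  have h5 : ∀ᶠ n : ℕ in atTop, ((n : ℝ) + 5) ^ 5 / Real.exp (ε * Real.log 2 * (n + 5)) ≤
      (4 * Real.exp (ε * Real.log 2 * 5))⁻¹ := by
    have := h1.eventually (gt_mem_nhds (show (0 : ℝ) < (4 * Real.exp (ε * Real.log 2 * 5))⁻¹ by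
      positivity))
    filter_upwards [this] with n hn
    exact hn.le
  filter_upwards [h5] with n hn
  have e1 : ((n + 5).choose 4 : ℝ) ≤ ((n : ℝ) + 5) ^ 4 := by
    exact_mod_cast Nat.choose_le_pow (n + 5) 4
  have e2 : (4 * (n + 1) * (n + 5).choose 4 : ℝ) ≤ 4 * ((n : ℝ) + 5) ^ 5 := by
    have hnn : (0 : ℝ) ≤ n := Nat.cast_nonneg n
    calc (4 * (n + 1) * (n + 5).choose 4 : ℝ) ≤ 4 * (n + 5) * ((n : ℝ) + 5) ^ 4 := by
          apply mul_le_mul _ e1 (by positivity) (by positivity)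
          linarith
      _ = _ := by ring
  refine e2.trans ?_
  rw [div_le_iff₀ (Real.exp_pos _)] at hn
  rw [Real.rpow_def_of_pos two_pos]
  have e3 : Real.exp (ε * Real.log 2 * (n + 5)) =
      Real.exp (ε * Real.log 2 * 5) * Real.exp (Real.log 2 * (ε * n)) := by
    rw [← Real.exp_add]
    congr 1
    ring
  rw [e3] at hn
  calc 4 * ((n : ℝ) + 5) ^ 5 ≤ 4 * ((4 * Real.exp (ε * Real.log 2 * 5))⁻¹ *
        (Real.exp (ε * Real.log 2 * 5) * Real.exp (Real.log 2 * (ε * n)))) :=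
        mul_le_mul_of_nonneg_left hn (by norm_num)
    _ = Real.exp (Real.log 2 * (ε * n)) := by
        have := (Real.exp_pos (ε * Real.log 2 * 5)).ne'
        field_simp

theorem touch' : ∀ᶠ n : ℕ in atTop, ∀ (X : Set (EuclideanSpace ℝ (Fin n))) (r : ℝ) (κ : ℕ),
    IsPacking X r →
    upperDensity (fewNear X r 1 (√2) κ) r ≤
      (κ + 1) * (2 : ℝ) ^ (-(1104 / 1000 * n : ℝ)) := by
  filter_upwards [poly_le (ε := 4 / 10000) (by norm_num), rho_num (c := 6044 / 10000) le_rfl]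
    with n h1 h2 X r κ hX
  refine (touch hX κ).trans ?_
  rw [mul_assoc, mul_assoc]
  apply mul_le_mul_of_nonneg_left _ (by positivity)
  calc (4 * (n + 1) * (n + 5).choose 4 : ℝ) * ((2 : ℝ) ^ (-(n : ℝ) / 2) * rho n)
      ≤ (2 : ℝ) ^ (4 / 10000 * n : ℝ) * ((2 : ℝ) ^ (-(n : ℝ) / 2) *
        (2 : ℝ) ^ (-(6044 / 10000 * n : ℝ))) := by
        apply mul_le_mul h1 _ (mul_nonneg (by positivity) optDensity_nonneg) (by positivity)
        exact mul_le_mul_of_nonneg_left h2 (by positivity)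
    _ = _ := by
        rw [← Real.rpow_add two_pos, ← Real.rpow_add two_pos]
        congr 1
        ring

end Pool.Agent.TH220.NT
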