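import Pool.Agent.TH220.NT.Main
import Pool.Agent.W48.KS.Final
import Pool.Agent.W249.KS.Num

/-! Exponential rates (for MP_dbfdb2_gt). -/

open Filter Set
open scoped Topology

namespace Pool.Agent.TH220.NT

/-- `(1 + v) log (1 + v) - v log v` -/
noncomputable def G (v : ℝ) : ℝ := (1 + v) * Real.log (1 + v) - v * Real.log v

theorem codeMax_le_of {N : ℕ} {s b : ℝ} (hs : s < 1)
    (h : ∀ C : Finset (EuclideanSpace ℝ (Fin N)), (∀ x ∈ C, ‖x‖ = 1) →
      (∀ x ∈ C, ∀ y ∈ C, x ≠ y → inner ℝ x y ≤ s) → (C.card : ℝ) ≤ b) : (codeMax N s : ℝ) ≤ b := by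
  obtain ⟨C, h1, h2, h3⟩ := codeMax_mem N hs
  rw [← h3]
  exact h C h1 h2

open Pool.Agent.W259.GP Pool.Agent.W48.KS in
/-- the Kabatiansky-Levenshtein bound -/
theorem code_asym {s v : ℝ} (hv : 0 < v) (hs : s ^ 2 * (1 + 2 * v) ^ 2 < 4 * v * (1 + v))
    {ε : ℝ} (hε : 0 < ε) :
    ∃ N0 : ℕ, ∀ N ≥ N0, (codeMax N s : ℝ) ≤ Real.exp (N * (G v + ε)) := by
  have hs1 : s < 1 := by
    by_contra hcon
    push Not at hcon
    have h1 : 1 ≤ s ^ 2 := by nlinarith
    have h2 : (1 + 2 * v) ^ 2 ≤ s ^ 2 * (1 + 2 * v) ^ 2 := le_mul_of_one_le_left (by positivity) h1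
    nlinarith
  set c : Fin 1 → ℝ := fun _ => 2 * v * (1 + v) with hc
  set O : Fin 1 → Fin 1 → ℝ := fun _ _ => 1 with hO
  have hOr : IsOrth O := by
    intro j l
    have : j = l := Subsingleton.elim _ _
    simp [hO, this]
  have hO'r : IsOrth (fun (_ _ : Fin 0) => (0 : ℝ)) := by
    intro j
    exact j.elim0
  have hcp : 0 < 2 * v * (1 + v) := by positivity
  have hsq : 1 + 2 * (2 * v * (1 + v)) = (1 + 2 * v) ^ 2 := by ring
  have hg : gH (2 * v * (1 + v)) = G v := by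
    rw [Pool.Agent.W249.KS.gH_eq (ν := 1 + 2 * v) (by linarith) hsq]
    unfold G
    have e1 : (1 + 2 * v + 1) / 2 = 1 + v := by ring
    have e2 : (1 + 2 * v - 1) / 2 = v := by ring
    rw [e1, e2]
  have hE : ∑ j, O j 0 ^ 2 * eC (c j) < 1 / 2 * √(2 - 2 * s) ^ 2 := by
    rw [Real.sq_sqrt (by linarith)]
    simp only [hO, hc, Finset.univ_unique, Finset.sum_singleton, one_pow, one_mul]
    unfold eC
    have : s < √(2 * (2 * v * (1 + v)) / (1 + 2 * (2 * v * (1 + v)))) := by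
      rw [hsq]
      apply Real.lt_sqrt_of_sq_lt
      rw [lt_div_iff₀ (by positivity)]
      calc s ^ 2 * (1 + 2 * v) ^ 2 < _ := hs
        _ = _ := by ring
    linarith
  obtain ⟨N0, hN0⟩ := code_gauss (n := 0) (O := O) (c := c) (O' := fun _ _ => 0)
    (c' := fun _ => 1) hOr hO'r (fun _ => hcp) (fun j => j.elim0) (fun i => i.elim0)
    (sd := √(2 - 2 * s)) (Real.sqrt_pos.2 (by linarith)) hE hε
  refine ⟨N0, fun N hN => ?_⟩
  apply codeMax_le_of hs1
  intro C h1 h2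
  have h3 := hN0 N hN C h1 (by
    intro x hx y hy hxy
    rw [dist_eq_norm]
    apply Real.sqrt_le_iff.mpr
    refine ⟨norm_nonneg _, ?_⟩
    rw [@norm_sub_sq_real, h1 x hx, h1 y hy]
    have := h2 x hx y hy hxy
    linarith)
  refine h3.trans (le_of_eq ?_)
  simp only [hc, Finset.univ_unique, Finset.sum_singleton, hg]
  simp

theorem G_pos {v : ℝ} (hv : 0 < v) : 0 < G v := by
  unfold G
  have h1 : 0 < Real.log (1 + v) := Real.log_pos (by linarith)
  have h2 : Real.log v ≤ Real.log (1 + v) := Real.log_le_log hv (by linarith)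
  nlinarith

/-- the rate with a constant factor and one more dimension -/
theorem code_asym' {s v : ℝ} (hv : 0 < v) (hs : s ^ 2 * (1 + 2 * v) ^ 2 < 4 * v * (1 + v))
    {ε : ℝ} (hε : 0 < ε) (c : ℝ) (hc : 0 < c) :
    ∀ᶠ n : ℕ in atTop, c * (codeMax (n + 1) s : ℝ) ≤ Real.exp (n * (G v + ε)) := by
  obtain ⟨N0, hN0⟩ := code_asym hv hs (ε := ε / 2) (by positivity)
  have h1 : ∀ᶠ n : ℕ in atTop, Real.log c + (G v + ε / 2) ≤ n * (ε / 2) := by
    have : Tendsto (fun n : ℕ => (n : ℝ) * (ε / 2)) atTop atTop :=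
      tendsto_natCast_atTop_atTop.atTop_mul_const (by positivity)
    exact this.eventually_ge_atTop _
  filter_upwards [eventually_ge_atTop N0, h1] with n hn h1
  have h2 := hN0 (n + 1) (by omega)
  calc c * (codeMax (n + 1) s : ℝ) ≤ c * Real.exp (((n + 1 : ℕ) : ℝ) * (G v + ε / 2)) :=
        mul_le_mul_of_nonneg_left h2 hc.le
    _ = Real.exp (Real.log c + (n + 1) * (G v + ε / 2)) := by
        rw [Real.exp_add, Real.exp_log hc]; push_cast; ring
    _ ≤ Real.exp (n * (G v + ε)) := by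
        apply Real.exp_le_exp.2
        nlinarith

theorem D_asym {α β : ℝ} (hα : 1 ≤ α) {k J m : ℕ}
    (v : ℕ → ℝ) {v0 : ℝ}
    (hv : ∀ i ∈ Finset.Ico 1 k, 0 < v i ∧
      cosB α β i ^ 2 * (1 + 2 * v i) ^ 2 < 4 * v i * (1 + v i))
    (hv0 : 0 < v0) (hv0' : cosB α 1 J ^ 2 * (1 + 2 * v0) ^ 2 < 4 * v0 * (1 + v0)) {γ : ℝ}
    (hγ : ∑ i ∈ Finset.Ico 1 k, G (v i) + m * G v0 < γ) :
    ∀ᶠ n : ℕ in atTop, (((∏ i ∈ Finset.Ico 1 k, 2 * codeMax (n + 1) (cosB α β i)) *
      (J + codeMax (n + 1) (cosB α 1 J) + m).choose (J + codeMax (n + 1) (cosB α 1 J)) : ℕ) : ℝ)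
      ≤ Real.exp (n * γ) := by
  set tot := ∑ i ∈ Finset.Ico 1 k, G (v i) + m * G v0 with htot
  set ε : ℝ := (γ - tot) / (k + m + 1) with hεd
  have hε : 0 < ε := by
    apply div_pos (by linarith)
    positivity
  have h1 : ∀ᶠ n : ℕ in atTop, ∀ i ∈ Finset.Ico 1 k,
      2 * (codeMax (n + 1) (cosB α β i) : ℝ) ≤ Real.exp (n * (G (v i) + ε)) := by
    rw [Finset.eventually_all]
    intro i hi
    exact code_asym' (hv i hi).1 (hv i hi).2 hε 2 (by norm_num)
  have h2 := code_asym' hv0 hv0' hε ((J : ℝ) + m + 1) (by positivity)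
  filter_upwards [h1, h2] with n h1 h2
  have hlt := cosB_lt hα (β := 1) one_pos J
  have hA1 : 1 ≤ codeMax (n + 1) (cosB α 1 J) := codeMax_pos (n := n + 1) (Nat.succ_pos n) hlt
  set A := codeMax (n + 1) (cosB α 1 J) with hA
  have e1 : ((J + A + m).choose (J + A) : ℝ) ≤ Real.exp (n * (G v0 + ε)) ^ m := by
    have a1 : (J + A + m).choose (J + A) = (J + A + m).choose m := by
      rw [← Nat.choose_symm_add]
    have a2 : (J + A + m).choose m ≤ (J + A + m) ^ m := Nat.choose_le_pow _ _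
    have a3 : (((J + A + m : ℕ)) : ℝ) ≤ ((J : ℝ) + m + 1) * A := by
      have : (1 : ℝ) ≤ A := by exact_mod_cast hA1
      have hJ0 : (0 : ℝ) ≤ J := Nat.cast_nonneg J
      have hm0 : (0 : ℝ) ≤ m := Nat.cast_nonneg m
      push_cast
      nlinarith
    rw [a1]
    calc ((J + A + m).choose m : ℝ) ≤ ((J + A + m : ℕ) : ℝ) ^ m := by exact_mod_cast a2
      _ ≤ (((J : ℝ) + m + 1) * A) ^ m := pow_le_pow_left₀ (Nat.cast_nonneg _) a3 m
      _ ≤ _ := pow_le_pow_left₀ (by positivity) h2 m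
  have e2 : ((∏ i ∈ Finset.Ico 1 k, 2 * codeMax (n + 1) (cosB α β i) : ℕ) : ℝ) ≤
      ∏ i ∈ Finset.Ico 1 k, Real.exp (n * (G (v i) + ε)) := by
    push_cast
    exact Finset.prod_le_prod (fun i _ => by positivity) h1
  rw [Nat.cast_mul]
  calc _ ≤ (∏ i ∈ Finset.Ico 1 k, Real.exp (n * (G (v i) + ε))) *
        Real.exp (n * (G v0 + ε)) ^ m := mul_le_mul e2 e1 (by positivity) (by positivity)
    _ = Real.exp (n * (tot + ((Finset.Ico 1 k).card + m) * ε)) := by
        rw [← Real.exp_sum, ← Real.exp_nat_mul, ← Real.exp_add]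
        congr 1
        rw [← Finset.mul_sum, Finset.sum_add_distrib, Finset.sum_const, nsmul_eq_mul, htot]
        ring
    _ ≤ Real.exp (n * γ) := by
        apply Real.exp_le_exp.2
        apply mul_le_mul_of_nonneg_left _ (Nat.cast_nonneg n)
        have h3 : (((Finset.Ico 1 k).card : ℝ) + m) * ε ≤ (k + m + 1) * ε := by
          apply mul_le_mul_of_nonneg_right _ hε.le
          rw [Nat.card_Ico]
          have : ((k - 1 : ℕ) : ℝ) ≤ k := by exact_mod_cast Nat.sub_le k 1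
          linarith
        have h4 : (k + m + 1) * ε = γ - tot := by
          rw [hεd]
          field_simp
        linarith

end Pool.Agent.TH220.NT
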