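import Pool.Agent.TH220.NT.Code

/-! Points of a packing near a given point (for MP_dbfdb2_gt). -/

open scoped InnerProductSpace

namespace Pool.Agent.TH220.NT

/-- the cosine bounds `1 - β ^ 2 / (2 α ^ 2 - 1 + 1 / j)` -/
noncomputable def cosB (α β : ℝ) (j : ℕ) : ℝ := 1 - β ^ 2 / (2 * α ^ 2 - 1 + 1 / j)

theorem den_pos {α : ℝ} (hα : 1 ≤ α) (j : ℕ) : 0 < 2 * α ^ 2 - 1 + 1 / (j : ℝ) := by
  have h1 : 1 ≤ α ^ 2 := by nlinarith
  have h2 : (0 : ℝ) ≤ 1 / j := by positivity
  linarith

theorem cosB_lt {α β : ℝ} (hα : 1 ≤ α) (hβ : 0 < β) (j : ℕ) : cosB α β j < 1 := by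
  have := div_pos (pow_pos hβ 2) (den_pos hα j)
  unfold cosB
  linarith

theorem near_card {n : ℕ} {α β : ℝ} (hα : 1 ≤ α) (hβ : 0 < β) {T Q : Finset (EuclideanSpace ℝ (Fin n))}
    (hT : T.Nonempty) (hT1 : ∀ t ∈ T, ∀ t' ∈ T, t ≠ t' → 1 ≤ dist t t')
    (hQT : ∀ y ∈ Q, ∀ t ∈ T, dist y t ≤ α)
    (hQ : ∀ y ∈ Q, ∀ y' ∈ Q, y ≠ y' → β ≤ dist y y') :
    Q.card ≤ codeMax (n + 1) (cosB α β T.card) := by
  have h := ball_code (Q := Q) (c := (T.card : ℝ)⁻¹ • ∑ t ∈ T, t)
    (p := (2 * α ^ 2 - 1 + 1 / (T.card : ℝ)) / 2) (m := β ^ 2)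
    (by have := den_pos hα T.card; positivity) (by positivity)
    (fun y hy => by
      have := near_centroid hT hT1 y (hQT y hy)
      refine this.trans (le_of_eq ?_)
      have : (T.card : ℝ) ≠ 0 := by exact_mod_cast (Finset.card_pos.2 hT).ne'
      field_simp)
    (fun y hy y' hy' hyy => by
      have := hQ y hy y' hy' hyy
      rw [dist_eq_norm] at this
      exact pow_le_pow_left₀ hβ.le this 2)
  have e : 1 - β ^ 2 / (2 * ((2 * α ^ 2 - 1 + 1 / (T.card : ℝ)) / 2)) = cosB α β T.card := by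
    unfold cosB
    congr 2
    ring
  rw [e] at h
  exact h

theorem chain {n : ℕ} {α β : ℝ} (hα : 1 ≤ α) (hαβ : α < β) {k a m : ℕ} (hk : 1 ≤ k)
    (hclique : ∀ Q : Finset (EuclideanSpace ℝ (Fin n)),
      (∀ x ∈ Q, ∀ y ∈ Q, x ≠ y → 1 ≤ dist x y ∧ dist x y ≤ α) → Q.card ≤ a)
    (hm : β ^ 2 < (m + 1) * (β ^ 2 - (2 * α ^ 2 - 1 + 1 / k))) :
    ∀ (d j : ℕ), 1 ≤ j → j + d = k → ∀ T S : Finset (EuclideanSpace ℝ (Fin n)), T.card = j →
      (∀ t ∈ T, ∀ t' ∈ T, t ≠ t' → 1 ≤ dist t t') →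
      (∀ y ∈ S, ∀ t ∈ T, 1 ≤ dist y t ∧ dist y t ≤ α) →
      (∀ x ∈ S, ∀ y ∈ S, x ≠ y → 1 ≤ dist x y ∧ (dist x y ≤ α ∨ β ≤ dist x y)) →
      S.card + 1 ≤ (∏ i ∈ Finset.Ico j k, 2 * codeMax (n + 1) (cosB α β i)) *
        (a + m).choose a := by
  classical
  have hβ : 0 < β := by linarith
  intro d
  induction d with
  | zero =>
    intro j hj hjk T S hTj hT1 hST hS
    rw [add_zero] at hjk
    subst hjk
    rw [Finset.Ico_self, Finset.prod_empty, one_mul]
    apply ramsey (fun x y => dist x y ≤ α) (fun x y h => by rwa [dist_comm]) (a + m) a m le_rfl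
    · intro Q hQ hq
      exact hclique Q (fun x hx y hy hxy => ⟨(hS x (hQ hx) y (hQ hy) hxy).1, hq x hx y hy hxy⟩)
    · intro Q hQ hq
      have hTne : T.Nonempty := Finset.card_pos.1 (by omega)
      have hD := den_pos hα j
      have h := small_ball (Q := Q) (c := (T.card : ℝ)⁻¹ • ∑ t ∈ T, t)
        (p := (2 * α ^ 2 - 1 + 1 / (T.card : ℝ)) / 2) (m := β ^ 2)
        (fun y hy => by
          have := near_centroid hTne hT1 y (fun t ht => (hST y (hQ hy) t ht).2)
          refine this.trans (le_of_eq ?_)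
          have : (T.card : ℝ) ≠ 0 := by exact_mod_cast (Finset.card_pos.2 hTne).ne'
          field_simp)
        (fun y hy y' hy' hyy => by
          rcases (hS y (hQ hy) y' (hQ hy') hyy).2 with h1 | h1
          · exact absurd h1 (hq y hy y' hy' hyy)
          · rw [dist_eq_norm] at h1
            exact pow_le_pow_left₀ hβ.le h1 2) (by positivity)
      rw [hTj] at h
      have e : 2 * ((2 * α ^ 2 - 1 + 1 / (j : ℝ)) / 2) = 2 * α ^ 2 - 1 + 1 / j := by ring
      rw [e] at h
      have hpos : 0 < β ^ 2 - (2 * α ^ 2 - 1 + 1 / (j : ℝ)) := by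
        by_contra hcon
        push Not at hcon
        have h1 : ((m : ℝ) + 1) * (β ^ 2 - (2 * α ^ 2 - 1 + 1 / (j : ℝ))) ≤ 0 :=
          mul_nonpos_of_nonneg_of_nonpos (by positivity) hcon
        have : 0 < β ^ 2 := by positivity
        linarith
      have h2 : (Q.card : ℝ) < m + 1 := lt_of_mul_lt_mul_right (h.trans_lt hm) hpos.le
      have h3 : Q.card < m + 1 := by exact_mod_cast h2
      omega
  | succ d ih =>
    intro j hj hjk T S hTj hT1 hST hS
    have hTne : T.Nonempty := Finset.card_pos.1 (by omega)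
    set B := (∏ i ∈ Finset.Ico (j + 1) k, 2 * codeMax (n + 1) (cosB α β i)) *
      (a + m).choose a with hB
    have hlt := cosB_lt hα hβ j
    have hA1 : 1 ≤ codeMax (n + 1) (cosB α β j) := codeMax_pos (n := n + 1) (Nat.succ_pos n) hlt
    have hB1 : 1 ≤ B := by
      rw [hB]
      apply Nat.mul_pos
      · apply Finset.prod_pos
        intro i _
        have := codeMax_pos (n := n + 1) (Nat.succ_pos n) (cosB_lt hα hβ i)
        omega
      · exact Nat.choose_pos (Nat.le_add_right a m)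
    have h1 := greedy (fun x y => dist x y ≤ α) (fun x y h => by rwa [dist_comm]) S
      (codeMax (n + 1) (cosB α β j)) B
      (fun Q hQ hq => by
        have := near_card hα hβ hTne hT1 (Q := Q)
          (fun y hy t ht => (hST y (hQ hy) t ht).2)
          (fun y hy y' hy' hyy => by
            rcases (hS y (hQ hy) y' (hQ hy') hyy).2 with h1 | h1
            · exact absurd h1 (hq y hy y' hy' hyy)
            · exact h1)
        rwa [hTj] at this)
      (fun q hq => by
        have hqT : q ∉ T := by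
          intro hqT
          have := (hST q hq q hqT).1
          rw [dist_self] at this
          linarith
        apply ih (j + 1) (by omega) (by omega) (insert q T)
        · rw [Finset.card_insert_of_notMem hqT, hTj]
        · intro t ht t' ht' htt
          rcases Finset.mem_insert.1 ht with h | h <;> rcases Finset.mem_insert.1 ht' with h' | h'
          · exact absurd (h.trans h'.symm) htt
          · rw [h]; exact (hST q hq t' h').1
          · rw [h', dist_comm]; exact (hST q hq t h).1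
          · exact hT1 t h t' h' htt
        · intro y hy t ht
          obtain ⟨hy1, hy2⟩ := Finset.mem_filter.1 hy
          have hyS := Finset.mem_of_mem_erase hy1
          have hyq := Finset.ne_of_mem_erase hy1
          rcases Finset.mem_insert.1 ht with h | h
          · rw [h]
            exact ⟨(hS y hyS q hq hyq).1, by rw [dist_comm]; exact hy2⟩
          · exact hST y hyS t h
        · intro x hx y hy hxy
          exact hS x (Finset.mem_of_mem_erase (Finset.mem_filter.1 hx).1) y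
            (Finset.mem_of_mem_erase (Finset.mem_filter.1 hy).1) hxy)
    have h2 : ∏ i ∈ Finset.Ico j k, 2 * codeMax (n + 1) (cosB α β i)
        = (2 * codeMax (n + 1) (cosB α β j)) *
          ∏ i ∈ Finset.Ico (j + 1) k, 2 * codeMax (n + 1) (cosB α β i) := by
      rw [Finset.prod_eq_prod_Ico_succ_bot (by omega)]
    rw [h2, mul_assoc, ← hB]
    have h3 : 1 ≤ codeMax (n + 1) (cosB α β j) * B := Nat.mul_pos hA1 hB1
    calc S.card + 1 ≤ codeMax (n + 1) (cosB α β j) * B + codeMax (n + 1) (cosB α β j) * B :=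
          Nat.add_le_add h1 h3
      _ = 2 * codeMax (n + 1) (cosB α β j) * B := by ring

/-- cliques, touching case -/
theorem clique_one {n : ℕ} (Q : Finset (EuclideanSpace ℝ (Fin n)))
    (h : ∀ x ∈ Q, ∀ y ∈ Q, x ≠ y → 1 ≤ dist x y ∧ dist x y ≤ 1) : Q.card ≤ n + 1 := by
  have := simplex_card (Q := Q) (fun x hx y hy hxy =>
    le_antisymm (h x hx y hy hxy).2 (h x hx y hy hxy).1)
  rwa [finrank_euclideanSpace_fin] at this

/-- cliques, general case -/
theorem clique_gen {n : ℕ} {α : ℝ} (hα : 1 ≤ α) {J : ℕ} (hJ : 1 ≤ J)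
    (Q : Finset (EuclideanSpace ℝ (Fin n)))
    (h : ∀ x ∈ Q, ∀ y ∈ Q, x ≠ y → 1 ≤ dist x y ∧ dist x y ≤ α) :
    Q.card ≤ J + codeMax (n + 1) (cosB α 1 J) := by
  classical
  rcases le_total Q.card J with hle | hle
  · omega
  obtain ⟨T, hTQ, hTJ⟩ := Finset.exists_subset_card_eq hle
  have hTne : T.Nonempty := Finset.card_pos.1 (by omega)
  have h1 := near_card hα one_pos hTne (T := T) (Q := Q \ T)
    (fun t ht t' ht' htt => (h t (hTQ ht) t' (hTQ ht') htt).1)
    (fun y hy t ht => by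
      obtain ⟨hy1, hy2⟩ := Finset.mem_sdiff.1 hy
      exact (h y hy1 t (hTQ ht) (fun e => hy2 (by rw [e]; exact ht))).2)
    (fun y hy y' hy' hyy => (h y (Finset.mem_sdiff.1 hy).1 y' (Finset.mem_sdiff.1 hy').1 hyy).1)
  rw [hTJ] at h1
  have h2 : (Q \ T).card + T.card = Q.card := Finset.card_sdiff_add_card_eq_card hTQ
  omega

end Pool.Agent.TH220.NT
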