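import Pool.Agent.TH220.NT.Geo
import Pool.Agent.H818R2.Base

/-! Spherical codes and separated sets in a ball (for MP_dbfdb2_gt). -/

open scoped InnerProductSpace
open Set

namespace Pool.Agent.TH220.NT

/-- the largest number of unit vectors of `ℝ^n` with mutual inner products at most `s` -/
noncomputable def codeMax (n : ℕ) (s : ℝ) : ℕ :=
  sSup {k | ∃ C : Finset (EuclideanSpace ℝ (Fin n)), (∀ x ∈ C, ‖x‖ = 1) ∧
    (∀ x ∈ C, ∀ y ∈ C, x ≠ y → ⟪x, y⟫_ℝ ≤ s) ∧ C.card = k}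

theorem codeMax_bdd (n : ℕ) {s : ℝ} (hs : s < 1) :
    BddAbove {k | ∃ C : Finset (EuclideanSpace ℝ (Fin n)), (∀ x ∈ C, ‖x‖ = 1) ∧
      (∀ x ∈ C, ∀ y ∈ C, x ≠ y → ⟪x, y⟫_ℝ ≤ s) ∧ C.card = k} := by
  classical
  set d : ℝ := √(2 - 2 * s) with hd
  have hd0 : 0 < d := Real.sqrt_pos.2 (by linarith)
  refine ⟨⌈(2 / d + 1) ^ n⌉₊, ?_⟩
  rintro k ⟨C, h1, h2, rfl⟩
  set P := C.image (fun x => (2 / d) • x) with hP
  have hPc : P.card = C.card := Finset.card_image_of_injective _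
    (smul_right_injective _ (by positivity))
  have h3 : Pool.Agent.H818R2.Sep 2 P := by
    intro x hx y hy hxy
    obtain ⟨x', hx', rfl⟩ := Finset.mem_image.1 hx
    obtain ⟨y', hy', rfl⟩ := Finset.mem_image.1 hy
    have hne : x' ≠ y' := fun h => hxy (by rw [h])
    have e : d ≤ ‖x' - y'‖ := by
      apply Real.sqrt_le_iff.2 ⟨norm_nonneg _, ?_⟩
      rw [@norm_sub_sq_real, h1 x' hx', h1 y' hy']
      have := h2 x' hx' y' hy' hne
      linarith
    rw [dist_eq_norm, ← smul_sub, norm_smul, Real.norm_of_nonneg (by positivity)]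
    calc (2 : ℝ) = 2 / d * d := by field_simp
      _ ≤ 2 / d * ‖x' - y'‖ := mul_le_mul_of_nonneg_left e (by positivity)
  have h4 := Pool.Agent.H818R2.card_le h3 (c := 0) (R := 2 / d) (by positivity) (by
    intro x hx
    obtain ⟨x', hx', rfl⟩ := Finset.mem_image.1 hx
    rw [dist_zero_right, norm_smul, h1 x' hx', Real.norm_of_nonneg (by positivity), mul_one])
  rw [finrank_euclideanSpace_fin, hPc] at h4
  exact_mod_cast h4.trans (Nat.le_ceil _)

theorem le_codeMax {n : ℕ} {s : ℝ} (hs : s < 1) {C : Finset (EuclideanSpace ℝ (Fin n))}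
    (h1 : ∀ x ∈ C, ‖x‖ = 1) (h2 : ∀ x ∈ C, ∀ y ∈ C, x ≠ y → ⟪x, y⟫_ℝ ≤ s) :
    C.card ≤ codeMax n s :=
  le_csSup (codeMax_bdd n hs) ⟨C, h1, h2, rfl⟩

theorem codeMax_mem (n : ℕ) {s : ℝ} (hs : s < 1) :
    ∃ C : Finset (EuclideanSpace ℝ (Fin n)), (∀ x ∈ C, ‖x‖ = 1) ∧
      (∀ x ∈ C, ∀ y ∈ C, x ≠ y → ⟪x, y⟫_ℝ ≤ s) ∧ C.card = codeMax n s :=
  Nat.sSup_mem (s := {k | ∃ C : Finset (EuclideanSpace ℝ (Fin n)), (∀ x ∈ C, ‖x‖ = 1) ∧
      (∀ x ∈ C, ∀ y ∈ C, x ≠ y → ⟪x, y⟫_ℝ ≤ s) ∧ C.card = k})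
    ⟨0, ∅, by simp, by simp, by simp⟩ (codeMax_bdd n hs)

theorem codeMax_mono (n : ℕ) {s t : ℝ} (hst : s ≤ t) (ht : t < 1) : codeMax n s ≤ codeMax n t := by
  obtain ⟨C, h1, h2, h3⟩ := codeMax_mem n (hst.trans_lt ht)
  rw [← h3]
  exact le_codeMax ht h1 (fun x hx y hy hxy => (h2 x hx y hy hxy).trans hst)

theorem codeMax_pos {n : ℕ} (hn : 0 < n) {s : ℝ} (hs : s < 1) : 1 ≤ codeMax n s := by
  have := le_codeMax (n := n) hs (C := {EuclideanSpace.single (⟨0, hn⟩ : Fin n) (1 : ℝ)})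
    (by
      intro x hx
      rw [Finset.mem_singleton] at hx
      rw [hx]
      simp)
    (by
      intro x hx y hy hxy
      rw [Finset.mem_singleton] at hx hy
      exact absurd (hx.trans hy.symm) hxy)
  simpa using this

theorem codeMax_zero (n : ℕ) : codeMax n 0 ≤ 2 * n := by
  obtain ⟨C, h1, h2, h3⟩ := codeMax_mem n (s := 0) one_pos
  rw [← h3]
  exact obtuse n _ finrank_euclideanSpace_fin C (fun x hx h => by
    have := h1 x hx
    rw [h, norm_zero] at this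
    exact zero_ne_one this) h2

/-- lift of a ball of squared radius `p` to the unit sphere one dimension higher -/
noncomputable def lift {n : ℕ} (p : ℝ) (y : EuclideanSpace ℝ (Fin n)) :
    EuclideanSpace ℝ (Fin (n + 1)) :=
  WithLp.toLp 2 (Fin.cons (√(p - ‖y‖ ^ 2) / √p) (fun i => y i / √p))

theorem inner_lift {n : ℕ} {p : ℝ} (hp : 0 < p) (x y : EuclideanSpace ℝ (Fin n)) :
    ⟪lift p x, lift p y⟫_ℝ = (⟪x, y⟫_ℝ + √(p - ‖x‖ ^ 2) * √(p - ‖y‖ ^ 2)) / p := by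
  have hs : √p * √p = p := Real.mul_self_sqrt hp.le
  have hs0 : √p ≠ 0 := (Real.sqrt_pos.2 hp).ne'
  rw [PiLp.inner_apply, PiLp.inner_apply, Fin.sum_univ_succ]
  simp only [lift, Fin.cons_zero, Fin.cons_succ, RCLike.inner_apply, conj_trivial]
  rw [add_div, add_comm, Finset.sum_div]
  congr 1
  · apply Finset.sum_congr rfl
    intro i _
    rw [div_mul_div_comm, hs]
  · rw [div_mul_div_comm, hs, mul_comm]

theorem ball_code {n : ℕ} {Q : Finset (EuclideanSpace ℝ (Fin n))} {c : EuclideanSpace ℝ (Fin n)}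
    {p m : ℝ} (hp : 0 < p) (hm : 0 < m) (h1 : ∀ y ∈ Q, ‖y - c‖ ^ 2 ≤ p)
    (h2 : ∀ y ∈ Q, ∀ y' ∈ Q, y ≠ y' → m ≤ ‖y - y'‖ ^ 2) :
    Q.card ≤ codeMax (n + 1) (1 - m / (2 * p)) := by
  classical
  have hlt : 1 - m / (2 * p) < 1 := by
    have : 0 < m / (2 * p) := by positivity
    linarith
  have hself : ∀ y ∈ Q, ⟪lift p (y - c), lift p (y - c)⟫_ℝ = 1 := by
    intro y hy
    rw [inner_lift hp, Real.mul_self_sqrt (by linarith [h1 y hy]), real_inner_self_eq_norm_sq]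
    field_simp
    ring
  have hne : ∀ y ∈ Q, ∀ y' ∈ Q, y ≠ y' →
      ⟪lift p (y - c), lift p (y' - c)⟫_ℝ ≤ 1 - m / (2 * p) := by
    intro y hy y' hy' hyy
    rw [inner_lift hp]
    have a1 := h1 y hy
    have a2 := h1 y' hy'
    have a3 := h2 y hy y' hy' hyy
    have e : y - y' = (y - c) - (y' - c) := by abel
    rw [e, @norm_sub_sq_real] at a3
    have b1 := Real.sq_sqrt (show 0 ≤ p - ‖y - c‖ ^ 2 by linarith)
    have b2 := Real.sq_sqrt (show 0 ≤ p - ‖y' - c‖ ^ 2 by linarith)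
    have b3 : √(p - ‖y - c‖ ^ 2) * √(p - ‖y' - c‖ ^ 2)
        ≤ (p - ‖y - c‖ ^ 2 + (p - ‖y' - c‖ ^ 2)) / 2 := by
      nlinarith [sq_nonneg (√(p - ‖y - c‖ ^ 2) - √(p - ‖y' - c‖ ^ 2))]
    rw [div_le_iff₀ hp, sub_mul]
    have e2 : m / (2 * p) * p = m / 2 := by field_simp
    rw [e2]
    linarith
  have hinj : Set.InjOn (fun y => lift p (y - c)) Q := by
    intro y hy y' hy' hyy
    by_contra hcon
    have h3 := hne y hy y' hy' hcon
    simp only at hyy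
    rw [← hyy, hself y hy] at h3
    linarith
  rw [← Finset.card_image_of_injOn hinj]
  apply le_codeMax hlt
  · intro x hx
    obtain ⟨y, hy, rfl⟩ := Finset.mem_image.1 hx
    have := hself y hy
    rw [real_inner_self_eq_norm_sq] at this
    nlinarith [norm_nonneg (lift p (y - c))]
  · intro x hx z hz hxz
    obtain ⟨y, hy, rfl⟩ := Finset.mem_image.1 hx
    obtain ⟨w, hw, rfl⟩ := Finset.mem_image.1 hz
    exact hne y hy w hw (fun h => hxz (by rw [h]))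

end Pool.Agent.TH220.NT
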