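import Mathlib

/-! A bound of Ramsey type and the double sum inequality (for MP_dbfdb2_gt). -/

open scoped InnerProductSpace

namespace Pool.Agent.TH220.NT

open Classical in
/-- If the cliques of a symmetric relation have at most `a` elements and its independent sets have
at most `b` elements, the relation lives on fewer than `choose (a + b) a` points. -/
theorem ramsey {V : Type*} (R : V → V → Prop) (hs : ∀ x y, R x y → R y x) :
    ∀ (N a b : ℕ), a + b ≤ N → ∀ S : Finset V,
      (∀ Q ⊆ S, (∀ x ∈ Q, ∀ y ∈ Q, x ≠ y → R x y) → Q.card ≤ a) →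
      (∀ Q ⊆ S, (∀ x ∈ Q, ∀ y ∈ Q, x ≠ y → ¬ R x y) → Q.card ≤ b) →
      S.card + 1 ≤ (a + b).choose a := by
  intro N
  induction N with
  | zero =>
    intro a b hab S h1 h2
    rcases S.eq_empty_or_nonempty with rfl | ⟨v, hv⟩
    · have := Nat.choose_pos (Nat.le_add_right a b)
      simp only [Finset.card_empty, zero_add]
      exact this
    · have := h1 {v} (by simpa using hv) (by
        intro x hx y hy hxy
        simp only [Finset.mem_singleton] at hx hy
        exact absurd (hx.trans hy.symm) hxy)
      simp at this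
      omega
  | succ N ih =>
    intro a b hab S h1 h2
    rcases S.eq_empty_or_nonempty with rfl | ⟨v, hv⟩
    · have := Nat.choose_pos (Nat.le_add_right a b)
      simp only [Finset.card_empty, zero_add]
      exact this
    · have ha : 1 ≤ a := by
        have := h1 {v} (by simpa using hv) (by
          intro x hx y hy hxy
          simp only [Finset.mem_singleton] at hx hy
          exact absurd (hx.trans hy.symm) hxy)
        simpa using this
      have hb : 1 ≤ b := by
        have := h2 {v} (by simpa using hv) (by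
          intro x hx y hy hxy
          simp only [Finset.mem_singleton] at hx hy
          exact absurd (hx.trans hy.symm) hxy)
        simpa using this
      set P := (S.erase v).filter (fun y => R v y) with hP
      set M := (S.erase v).filter (fun y => ¬ R v y) with hM
      have hcard : P.card + M.card + 1 = S.card := by
        rw [hP, hM, Finset.card_filter_add_card_filter_not, Finset.card_erase_of_mem hv]
        have : 0 < S.card := Finset.card_pos.2 ⟨v, hv⟩
        omega
      have hPS : P ⊆ S := (Finset.filter_subset _ _).trans (Finset.erase_subset _ _)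
      have hMS : M ⊆ S := (Finset.filter_subset _ _).trans (Finset.erase_subset _ _)
      have hvP : v ∉ P := fun h => Finset.notMem_erase v S (Finset.mem_filter.1 h).1
      have hvM : v ∉ M := fun h => Finset.notMem_erase v S (Finset.mem_filter.1 h).1
      have e1 : P.card + 1 ≤ (a - 1 + b).choose (a - 1) := by
        apply ih (a - 1) b (by omega) P
        · intro Q hQ hq
          have := h1 (insert v Q) (by
            intro x hx
            rcases Finset.mem_insert.1 hx with rfl | hx
            · exact hv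
            · exact hPS (hQ hx)) (by
            intro x hx y hy hxy
            rcases Finset.mem_insert.1 hx with hx' | hx' <;>
              rcases Finset.mem_insert.1 hy with hy' | hy'
            · exact absurd (hx'.trans hy'.symm) hxy
            · rw [hx']; exact (Finset.mem_filter.1 (hQ hy')).2
            · rw [hy']; exact hs _ _ (Finset.mem_filter.1 (hQ hx')).2
            · exact hq x hx' y hy' hxy)
          rw [Finset.card_insert_of_notMem (fun h => hvP (hQ h))] at this
          omega
        · intro Q hQ hq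
          exact h2 Q (hQ.trans hPS) hq
      have e2 : M.card + 1 ≤ (a + (b - 1)).choose a := by
        apply ih a (b - 1) (by omega) M
        · intro Q hQ hq
          exact h1 Q (hQ.trans hMS) hq
        · intro Q hQ hq
          have := h2 (insert v Q) (by
            intro x hx
            rcases Finset.mem_insert.1 hx with rfl | hx
            · exact hv
            · exact hMS (hQ hx)) (by
            intro x hx y hy hxy
            rcases Finset.mem_insert.1 hx with hx' | hx' <;>
              rcases Finset.mem_insert.1 hy with hy' | hy'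
            · exact absurd (hx'.trans hy'.symm) hxy
            · rw [hx']; exact (Finset.mem_filter.1 (hQ hy')).2
            · rw [hy']; exact fun h => (Finset.mem_filter.1 (hQ hx')).2 (hs _ _ h)
            · exact hq x hx' y hy' hxy)
          rw [Finset.card_insert_of_notMem (fun h => hvM (hQ h))] at this
          omega
      have e3 : (a - 1 + b).choose (a - 1) + (a + (b - 1)).choose a = (a + b).choose a := by
        obtain ⟨a', rfl⟩ : ∃ a', a = a' + 1 := ⟨a - 1, by omega⟩
        obtain ⟨b', rfl⟩ : ∃ b', b = b' + 1 := ⟨b - 1, by omega⟩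
        have : a' + 1 + (b' + 1) = (a' + 1 + b') + 1 := by ring
        rw [this, Nat.choose_succ_succ]
        have e : a' + 1 - 1 + (b' + 1) = a' + 1 + b' := by omega
        have e' : a' + 1 + (b' + 1 - 1) = a' + 1 + b' := by omega
        rw [e, e']
        simp
      omega

/-- Greedy step: a maximal independent subset `Q` of `S`; `S` is covered by `Q` and the
neighbourhoods of its points. -/
theorem greedy {V : Type*} [DecidableEq V] (R : V → V → Prop) [DecidableRel R] (hs : ∀ x y, R x y → R y x) (S : Finset V)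
    (A B : ℕ) (hA : ∀ Q ⊆ S, (∀ x ∈ Q, ∀ y ∈ Q, x ≠ y → ¬ R x y) → Q.card ≤ A)
    (hB : ∀ q ∈ S, ((S.erase q).filter (fun y => R q y)).card + 1 ≤ B) :
    S.card ≤ A * B := by
  obtain ⟨Q, hQ, hmax⟩ := (S.powerset.filter
    (fun Q => ∀ x ∈ Q, ∀ y ∈ Q, x ≠ y → ¬ R x y)).exists_max_image (fun Q => Q.card)
    ⟨∅, by simp⟩
  simp only [Finset.mem_filter, Finset.mem_powerset] at hQ hmax
  have hcov : S ⊆ Q.biUnion (fun q => insert q ((S.erase q).filter (fun y => R q y))) := by
    intro y hy
    by_cases hyQ : y ∈ Q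
    · exact Finset.mem_biUnion.2 ⟨y, hyQ, Finset.mem_insert_self _ _⟩
    · by_contra hcon
      have h1 : ∀ q ∈ Q, ¬ R q y := by
        intro q hq hR
        apply hcon
        refine Finset.mem_biUnion.2 ⟨q, hq, Finset.mem_insert_of_mem ?_⟩
        refine Finset.mem_filter.2 ⟨Finset.mem_erase.2 ⟨?_, hy⟩, hR⟩
        rintro rfl
        exact hyQ hq
      have h2 := hmax (insert y Q) ⟨by
        intro x hx
        rcases Finset.mem_insert.1 hx with rfl | hx
        · exact hy
        · exact hQ.1 hx, by
        intro x hx z hz hxz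
        rcases Finset.mem_insert.1 hx with hx' | hx' <;>
          rcases Finset.mem_insert.1 hz with hz' | hz'
        · exact absurd (hx'.trans hz'.symm) hxz
        · rw [hx']; exact fun h => h1 z hz' (hs _ _ h)
        · rw [hz']; exact h1 x hx'
        · exact hQ.2 x hx' z hz' hxz⟩
      rw [Finset.card_insert_of_notMem hyQ] at h2
      omega
  calc S.card ≤ _ := Finset.card_le_card hcov
    _ ≤ ∑ q ∈ Q, (insert q ((S.erase q).filter (fun y => R q y))).card := Finset.card_biUnion_le
    _ ≤ ∑ q ∈ Q, B := by
        apply Finset.sum_le_sum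
        intro q hq
        exact (Finset.card_insert_le _ _).trans (hB q (hQ.1 hq))
    _ = Q.card * B := by rw [Finset.sum_const, smul_eq_mul]
    _ ≤ A * B := Nat.mul_le_mul_right _ (hA Q hQ.1 hQ.2)

section
variable {E : Type*} [NormedAddCommGroup E] [InnerProductSpace ℝ E]

/-- The double sum inequality. -/
theorem double_sum {ι : Type*} (T : Finset ι) (u : ι → E) (a b : ℝ)
    (ha : ∀ t ∈ T, ‖u t‖ ^ 2 ≤ a)
    (hb : ∀ t ∈ T, ∀ t' ∈ T, t ≠ t' → b ≤ ‖u t - u t'‖ ^ 2) :
    ‖∑ t ∈ T, u t‖ ^ 2 ≤ T.card * a + T.card * (T.card - 1) * (a - b / 2) := by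
  classical
  have e1 : ‖∑ t ∈ T, u t‖ ^ 2 = ∑ t ∈ T, ∑ t' ∈ T, ⟪u t, u t'⟫_ℝ := by
    rw [← real_inner_self_eq_norm_sq, sum_inner]
    apply Finset.sum_congr rfl
    intro t _
    rw [inner_sum]
  have e2 : ∀ t ∈ T, ∑ t' ∈ T, ⟪u t, u t'⟫_ℝ ≤ a + (T.card - 1) * (a - b / 2) := by
    intro t ht
    rw [← Finset.add_sum_erase T _ ht]
    apply add_le_add
    · rw [real_inner_self_eq_norm_sq]; exact ha t ht
    · have hc : ((T.card : ℝ) - 1) = (T.erase t).card := by
        rw [Finset.card_erase_of_mem ht, Nat.cast_sub (Finset.card_pos.2 ⟨t, ht⟩)]; simp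
      rw [hc, ← nsmul_eq_mul, ← Finset.sum_const]
      apply Finset.sum_le_sum
      intro t' ht'
      have h1 := ha t ht
      have h2 := ha t' (Finset.mem_of_mem_erase ht')
      have h3 := hb t ht t' (Finset.mem_of_mem_erase ht') (Finset.ne_of_mem_erase ht').symm
      rw [@norm_sub_sq_real] at h3
      linarith
  rw [e1]
  calc _ ≤ ∑ t ∈ T, (a + (T.card - 1) * (a - b / 2)) := Finset.sum_le_sum e2
    _ = _ := by rw [Finset.sum_const, nsmul_eq_mul]; ring

/-- Separated sets in a small ball are small. -/
theorem small_ball {Q : Finset E} {c : E} {p m : ℝ} (hp : ∀ y ∈ Q, ‖y - c‖ ^ 2 ≤ p)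
    (hm : ∀ y ∈ Q, ∀ y' ∈ Q, y ≠ y' → m ≤ ‖y - y'‖ ^ 2) (h0 : 0 ≤ m) :
    (Q.card : ℝ) * (m - 2 * p) ≤ m := by
  rcases Q.eq_empty_or_nonempty with rfl | hne
  · simpa using h0
  have h := double_sum Q (fun y => y - c) p m hp (fun t ht t' ht' h => by
    simpa using hm t ht t' ht' h)
  have h2 : 0 ≤ ‖∑ t ∈ Q, (t - c)‖ ^ 2 := by positivity
  have hN : (0 : ℝ) < Q.card := by exact_mod_cast Finset.card_pos.2 hne
  have h3 : 0 ≤ (Q.card : ℝ) * (p + (Q.card - 1) * (p - m / 2)) := by
    refine le_trans h2 (h.trans (le_of_eq (by ring)))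
  have h4 : 0 ≤ p + ((Q.card : ℝ) - 1) * (p - m / 2) := by
    by_contra hcon
    push Not at hcon
    have := mul_neg_of_pos_of_neg hN hcon
    linarith
  nlinarith

/-- A point near all points of a separated set is near its centroid. -/
theorem near_centroid {T : Finset E} (hT : T.Nonempty) {α : ℝ}
    (hsep : ∀ t ∈ T, ∀ t' ∈ T, t ≠ t' → 1 ≤ dist t t') (y : E)
    (hy : ∀ t ∈ T, dist y t ≤ α) :
    ‖y - (T.card : ℝ)⁻¹ • ∑ t ∈ T, t‖ ^ 2 ≤ α ^ 2 - 1 / 2 + 1 / (2 * T.card) := by
  have hN : (0 : ℝ) < T.card := by exact_mod_cast Finset.card_pos.2 hT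
  have h := double_sum T (fun t => y - t) (α ^ 2) 1
    (fun t ht => by
      have := hy t ht
      rw [dist_eq_norm] at this
      exact pow_le_pow_left₀ (norm_nonneg _) this 2)
    (fun t ht t' ht' h => by
      have h1 := hsep t ht t' ht' h
      rw [dist_eq_norm] at h1
      have e : y - t - (y - t') = t' - t := by abel
      rw [e, norm_sub_rev]
      nlinarith [norm_nonneg (t - t')])
  have e1 : y - (T.card : ℝ)⁻¹ • ∑ t ∈ T, t = (T.card : ℝ)⁻¹ • ∑ t ∈ T, (y - t) := by
    rw [Finset.sum_sub_distrib, Finset.sum_const, smul_sub, ← Nat.cast_smul_eq_nsmul ℝ,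
      smul_smul, inv_mul_cancel₀ hN.ne', one_smul]
  rw [e1, norm_smul, mul_pow, norm_inv, Real.norm_of_nonneg hN.le]
  have h5 : ((T.card : ℝ)⁻¹) ^ 2 * ‖∑ t ∈ T, (y - t)‖ ^ 2 ≤ ((T.card : ℝ)⁻¹) ^ 2 *
      (T.card * α ^ 2 + T.card * (T.card - 1) * (α ^ 2 - 1 / 2)) :=
    mul_le_mul_of_nonneg_left h (by positivity)
  refine h5.trans (le_of_eq ?_)
  field_simp
  ring

end

end Pool.Agent.TH220.NT
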