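import Pool.Agent.H818R2.Base2

/-! Comparison of upper densities of packings (for MP_dbfdb2_gt). -/

open MeasureTheory Metric Filter Set
open scoped Topology Pointwise
open Pool.Agent.H818R2

namespace Pool.Agent.TH220.NT

section
variable {E : Type*} [NormedAddCommGroup E] [InnerProductSpace ℝ E] [FiniteDimensional ℝ E]
  [MeasurableSpace E] [BorelSpace E]

theorem smul_inter {c : ℝ} (hc : 0 < c) (X : Set E) (T : ℝ) :
    c • X ∩ closedBall 0 (c * T) = c • (X ∩ closedBall 0 T) := by
  ext z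
  simp only [mem_inter_iff, mem_smul_set, mem_closedBall_zero_iff]
  constructor
  · rintro ⟨⟨x, hx, rfl⟩, h⟩
    refine ⟨x, ⟨hx, ?_⟩, rfl⟩
    rw [norm_smul, Real.norm_of_nonneg hc.le] at h
    exact le_of_mul_le_mul_left h hc
  · rintro ⟨x, ⟨hx, h⟩, rfl⟩
    refine ⟨⟨x, hx, rfl⟩, ?_⟩
    rw [norm_smul, Real.norm_of_nonneg hc.le]
    exact mul_le_mul_of_nonneg_left h hc.le

theorem ncard_smul {c : ℝ} (hc : 0 < c) (X : Set E) (T : ℝ) :
    (c • X ∩ closedBall 0 (c * T)).ncard = (X ∩ closedBall 0 T).ncard := by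
  rw [smul_inter hc, ← image_smul]
  exact ncard_image_of_injective _ (smul_right_injective _ hc.ne')

theorem finite_of_packing {X : Set E} {r : ℝ} (hX : IsPacking X r) (T : ℝ) :
    (X ∩ closedBall 0 T).Finite := by
  have h1 := isPacking_smul hX (inv_pos.2 hX.1)
  rw [inv_mul_cancel₀ hX.1.ne'] at h1
  have h2 := finite_inter h1 (r⁻¹ * T)
  rw [smul_inter (inv_pos.2 hX.1), ← image_smul] at h2
  exact Finite.of_finite_image h2 (smul_right_injective _ (inv_pos.2 hX.1).ne').injOn

theorem dens_le_one {X X' : Set E} (hX : IsPacking X 1) (hX' : IsPacking X' 1) {K q C : ℝ}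
    (hK : 0 ≤ K) (hq : 0 < q) (hC : 0 ≤ C)
    (h : ∀ T : ℝ, 0 ≤ T → ((X ∩ closedBall 0 T).ncard : ℝ) ≤
      K * (X' ∩ closedBall 0 (q * T + C)).ncard) :
    upperDensity X 1 ≤ K * q ^ Module.finrank ℝ E * upperDensity X' 1 := by
  set n := Module.finrank ℝ E with hn
  have hv := vb_pos (E := E)
  have key : ∀ u : ℝ, upperDensity X' 1 < u → upperDensity X 1 ≤ K * q ^ n * u := by
    intro u hu
    have hu0 : 0 ≤ u := (upperDensity_nonneg X' 1).trans hu.le
    have e1 : ∀ᶠ R : ℝ in atTop,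
        volume.real (ball (0 : E) R ∩ body X' 1) / volume.real (ball (0 : E) R) < u :=
      eventually_lt_of_limsup_lt hu (ratio_bdd X' 1)
    have hR' : Tendsto (fun R : ℝ => q * (R + 1) + C + 1) atTop atTop := by
      apply tendsto_atTop_add_const_right
      apply tendsto_atTop_add_const_right
      exact (tendsto_atTop_add_const_right _ _ tendsto_id).const_mul_atTop hq
    have e2 := hR'.eventually e1
    have e3 : ∀ᶠ R : ℝ in atTop,
        volume.real (ball (0 : E) R ∩ body X 1) / volume.real (ball (0 : E) R)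
        ≤ K * u * ((q * (R + 1) + C + 1) / R) ^ n := by
      filter_upwards [e2, eventually_gt_atTop 0] with R h2 hR
      have hR1 : 0 < q * (R + 1) + C + 1 := by positivity
      have a1 := body_le hX R
      have a2 := h (R + 1) (by linarith)
      rw [ncard_eq_toFinset_card _ (finite_inter hX (R + 1)),
        ncard_eq_toFinset_card _ (finite_inter hX' _)] at a2
      have a3 := le_body hX' (T := q * (R + 1) + C)
        (F := (finite_inter hX' (q * (R + 1) + C)).toFinset)
        (by intro x hx; simp only [Finite.coe_toFinset] at hx; exact hx.1)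
        (by intro x hx
            simp only [Finite.mem_toFinset, mem_inter_iff, mem_closedBall_zero_iff] at hx
            exact hx.2)
      rw [vol_ball 0 hR1, div_lt_iff₀ (by positivity)] at h2
      rw [vol_ball 0 hR, div_le_iff₀ (by positivity)]
      calc volume.real (ball (0 : E) R ∩ body X 1)
          ≤ ((finite_inter hX (R + 1)).toFinset.card : ℝ) * vb E := a1
        _ ≤ (K * (finite_inter hX' (q * (R + 1) + C)).toFinset.card) * vb E :=
            mul_le_mul_of_nonneg_right a2 hv.le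
        _ = K * ((finite_inter hX' (q * (R + 1) + C)).toFinset.card * vb E) := by ring
        _ ≤ K * (u * ((q * (R + 1) + C + 1) ^ n * vb E)) :=
            mul_le_mul_of_nonneg_left (a3.trans h2.le) hK
        _ = K * u * ((q * (R + 1) + C + 1) / R) ^ n * (R ^ n * vb E) := by
            rw [div_pow]; field_simp
    have e4 : Tendsto (fun R : ℝ => K * u * ((q * (R + 1) + C + 1) / R) ^ n) atTop
        (𝓝 (K * u * q ^ n)) := by
      apply Tendsto.const_mul
      apply Tendsto.pow
      have : Tendsto (fun R : ℝ => q + (q + C + 1) / R) atTop (𝓝 (q + 0)) :=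
        tendsto_const_nhds.add (tendsto_const_nhds.div_atTop tendsto_id)
      rw [add_zero] at this
      refine this.congr' ?_
      filter_upwards [eventually_gt_atTop 0] with R hR
      field_simp
      ring
    calc upperDensity X 1 ≤ limsup (fun R : ℝ => K * u * ((q * (R + 1) + C + 1) / R) ^ n) atTop :=
          limsup_le_limsup e3 (ratio_cobdd X 1) e4.isBoundedUnder_le
      _ = K * u * q ^ n := e4.limsup_eq
      _ = K * q ^ n * u := by ring
  apply le_of_forall_gt_imp_ge_of_dense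
  intro w hw
  rcases (mul_nonneg hK (pow_nonneg hq.le n)).eq_or_lt with h0 | h0
  · have := key (upperDensity X' 1 + 1) (by linarith)
    rw [← h0, zero_mul] at this
    rw [← h0, zero_mul] at hw
    linarith
  · have := key (w / (K * q ^ n)) (by rw [lt_div_iff₀ h0]; linarith [mul_comm (K * q ^ n) (upperDensity X' 1)])
    rwa [mul_div_cancel₀ _ h0.ne'] at this

theorem dens_le {X X' : Set E} {r r' : ℝ} (hX : IsPacking X r) (hX' : IsPacking X' r') {K C : ℝ}
    (hK : 0 ≤ K) (hC : 0 ≤ C)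
    (h : ∀ T : ℝ, ((X ∩ closedBall 0 T).ncard : ℝ) ≤ K * (X' ∩ closedBall 0 (T + C)).ncard) :
    upperDensity X r ≤ K * (r / r') ^ Module.finrank ℝ E * upperDensity X' r' := by
  have hr := hX.1
  have hr' := hX'.1
  have h1 := isPacking_smul hX (inv_pos.2 hr)
  rw [inv_mul_cancel₀ hr.ne'] at h1
  have h2 := isPacking_smul hX' (inv_pos.2 hr')
  rw [inv_mul_cancel₀ hr'.ne'] at h2
  have e1 := upperDensity_smul (X := X) (r := r) (inv_pos.2 hr)
  rw [inv_mul_cancel₀ hr.ne'] at e1
  have e2 := upperDensity_smul (X := X') (r := r') (inv_pos.2 hr')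
  rw [inv_mul_cancel₀ hr'.ne'] at e2
  rw [← e1, ← e2]
  apply dens_le_one h1 h2 hK (by positivity) (C := C / r') (by positivity)
  intro T _
  have a1 := ncard_smul (inv_pos.2 hr) X (r * T)
  have a2 := ncard_smul (inv_pos.2 hr') X' (r * T + C)
  have b1 : r⁻¹ * (r * T) = T := by field_simp
  have b2 : r'⁻¹ * (r * T + C) = r / r' * T + C / r' := by field_simp
  rw [b1] at a1
  rw [b2] at a2
  rw [a1, a2]
  exact h (r * T)

theorem exists_indep (X : Set E) (R : E → E → Prop) (hs : ∀ x y, R x y → R y x) :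
    ∃ X' ⊆ X, (∀ x ∈ X', ∀ y ∈ X', x ≠ y → ¬ R x y) ∧ ∀ x ∈ X, x ∈ X' ∨ ∃ x' ∈ X', R x' x := by
  obtain ⟨M, hM⟩ := zorn_subset
    {A : Set E | A ⊆ X ∧ ∀ x ∈ A, ∀ y ∈ A, x ≠ y → ¬ R x y} (by
    intro c hc hchain
    refine ⟨⋃₀ c, ⟨?_, ?_⟩, fun s hs => subset_sUnion_of_mem hs⟩
    · exact sUnion_subset fun s hs => (hc hs).1
    · rintro x ⟨s, hs, hx⟩ y ⟨t, ht, hy⟩ hxy
      rcases hchain.total hs ht with hst | hst
      · exact (hc ht).2 x (hst hx) y hy hxy
      · exact (hc hs).2 x hx y (hst hy) hxy)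
  have hM1 := hM.prop
  refine ⟨M, hM1.1, hM1.2, ?_⟩
  intro x hx
  by_contra hcon
  push Not at hcon
  have h1 : insert x M ⊆ M := by
    apply hM.le_of_ge (y := insert x M) _ (subset_insert x M)
    refine ⟨insert_subset hx hM1.1, ?_⟩
    intro y hy z hz hyz
    rcases mem_insert_iff.1 hy with h | h <;> rcases mem_insert_iff.1 hz with h' | h'
    · exact absurd (h.trans h'.symm) hyz
    · rw [h]; exact fun hR => hcon.2 z h' (hs _ _ hR)
    · rw [h']; exact hcon.2 y h
    · exact hM1.2 y h z h' hyz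
  exact hcon.1 (h1 (mem_insert x M))

theorem thin {X : Set E} (hfin : ∀ T : ℝ, (X ∩ closedBall 0 T).Finite) (R : E → E → Prop)
    (hs : ∀ x y, R x y → R y x) {C : ℝ} (hC : 0 ≤ C) (hRC : ∀ x y, R x y → dist x y ≤ C) (K : ℕ)
    (hdeg : ∀ X' ⊆ X, (∀ x ∈ X', ∀ y ∈ X', x ≠ y → ¬ R x y) → ∀ x ∈ X',
      {y ∈ X | y ≠ x ∧ R x y}.encard ≤ K) :
    ∃ X' ⊆ X, (∀ x ∈ X', ∀ y ∈ X', x ≠ y → ¬ R x y) ∧
      ∀ T : ℝ, ((X ∩ closedBall 0 T).ncard : ℝ) ≤
        (K + 1) * (X' ∩ closedBall 0 (T + C)).ncard := by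
  classical
  obtain ⟨X', hX'X, hind, hcov⟩ := exists_indep X R hs
  refine ⟨X', hX'X, hind, ?_⟩
  intro T
  have hfin' : (X' ∩ closedBall 0 (T + C)).Finite :=
    (hfin (T + C)).subset (inter_subset_inter_left _ hX'X)
  have hch : ∀ x : E, ∃ y : E, x ∈ X → (y ∈ X' ∧ (x = y ∨ R y x)) := by
    intro x
    by_cases hx : x ∈ X
    · rcases hcov x hx with h | ⟨x', h1, h2⟩
      · exact ⟨x, fun _ => ⟨h, Or.inl rfl⟩⟩
      · exact ⟨x', fun _ => ⟨h1, Or.inr h2⟩⟩
    · exact ⟨x, fun h => absurd h hx⟩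
  choose f hf using hch
  rw [ncard_eq_toFinset_card _ (hfin T), ncard_eq_toFinset_card _ hfin']
  have key : (hfin T).toFinset.card ≤ (K + 1) * hfin'.toFinset.card := by
    apply Finset.card_le_mul_card_image_of_maps_to (f := f)
    · intro x hx
      simp only [Finite.mem_toFinset, mem_inter_iff, mem_closedBall_zero_iff] at hx ⊢
      obtain ⟨h1, h2⟩ := hf x hx.1
      refine ⟨h1, ?_⟩
      rcases h2 with h2 | h2
      · rw [← h2]; linarith [hx.2]
      · have h3 := hRC _ _ h2
        rw [dist_eq_norm] at h3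
        calc ‖f x‖ = ‖x + (f x - x)‖ := by congr 1; abel
          _ ≤ ‖x‖ + ‖f x - x‖ := norm_add_le _ _
          _ ≤ T + C := add_le_add hx.2 h3
    · intro b hb
      simp only [Finite.mem_toFinset, mem_inter_iff] at hb
      have hd := hdeg X' hX'X hind b hb.1
      have hsub : (((hfin T).toFinset.filter (fun a => f a = b)) : Set E) ⊆
          insert b {y ∈ X | y ≠ b ∧ R b y} := by
        intro a ha
        simp only [Finset.coe_filter, Finite.mem_toFinset, mem_inter_iff, mem_ofPred_eq] at ha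
        obtain ⟨⟨h1, _⟩, h3⟩ := ha
        obtain ⟨_, h5⟩ := hf a h1
        rw [h3] at h5
        by_cases hab : a = b
        · exact mem_insert_iff.2 (Or.inl hab)
        · rcases h5 with h5 | h5
          · exact absurd h5 hab
          · exact mem_insert_iff.2 (Or.inr ⟨h1, hab, h5⟩)
      have h6 : ((((hfin T).toFinset.filter (fun a => f a = b)).card : ℕ) : ℕ∞) ≤ ((K + 1 : ℕ) : ℕ∞) := by
        rw [← encard_coe_eq_coe_finsetCard]
        calc _ ≤ (insert b {y ∈ X | y ≠ b ∧ R b y}).encard := encard_le_encard hsub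
          _ ≤ {y ∈ X | y ≠ b ∧ R b y}.encard + 1 := encard_insert_le _ _
          _ ≤ (K : ℕ∞) + 1 := by gcongr
          _ = _ := by push_cast; rfl
      exact_mod_cast h6
  exact_mod_cast key

end

end Pool.Agent.TH220.NT
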