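import Pool.Agent.TH220.NT.Comb

/-! Regular simplices, obtuse systems and the lift of a ball to a sphere (for MP_dbfdb2_gt). -/

open scoped InnerProductSpace

namespace Pool.Agent.TH220.NT

section
variable {E : Type*} [NormedAddCommGroup E] [InnerProductSpace ℝ E] [FiniteDimensional ℝ E]

/-- unit vectors with mutual inner products `1 / 2` are linearly independent -/
theorem indep_half {Q : Finset E} (h1 : ∀ x ∈ Q, ⟪x, x⟫_ℝ = 1)
    (h2 : ∀ x ∈ Q, ∀ y ∈ Q, x ≠ y → ⟪x, y⟫_ℝ = 1 / 2) :
    Q.card ≤ Module.finrank ℝ E := by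
  classical
  have hli : LinearIndependent ℝ (fun x : Q => (x : E)) := by
    rw [Fintype.linearIndependent_iff]
    intro g hg
    have key : ∀ k : Q, g k + ∑ i, g i = 0 := by
      intro k
      have e : ⟪∑ i : Q, g i • (i : E), (k : E)⟫_ℝ = 0 := by rw [hg, inner_zero_left]
      rw [sum_inner] at e
      have e2 : ∀ i : Q, ⟪g i • (i : E), (k : E)⟫_ℝ = (if i = k then g k / 2 else 0) + g i / 2 := by
        intro i
        rw [real_inner_smul_left]
        by_cases hik : i = k
        · subst hik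
          rw [h1 _ i.2, if_pos rfl]; ring
        · rw [h2 _ i.2 _ k.2 (fun h => hik (Subtype.ext h)), if_neg hik]; ring
      rw [Finset.sum_congr rfl (fun i _ => e2 i), Finset.sum_add_distrib,
        Finset.sum_ite_eq' Finset.univ k, if_pos (Finset.mem_univ k), ← Finset.sum_div] at e
      linarith
    have hsum : ∑ k : Q, (g k + ∑ i, g i) = 0 := Finset.sum_eq_zero (fun k _ => key k)
    rw [Finset.sum_add_distrib, Finset.sum_const, nsmul_eq_mul] at hsum
    have h3 : (1 + (Finset.univ : Finset Q).card : ℝ) * ∑ i, g i = 0 := by linarith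
    have h4 : ∑ i, g i = 0 := by
      rcases mul_eq_zero.1 h3 with h | h
      · have : (0 : ℝ) ≤ (Finset.univ : Finset Q).card := Nat.cast_nonneg _
        linarith
      · exact h
    intro k
    have := key k
    linarith
  have := hli.fintype_card_le_finrank
  simpa using this

/-- an equidistant set of `ℝ^n` has at most `n + 1` points -/
theorem simplex_card {Q : Finset E} (h : ∀ x ∈ Q, ∀ y ∈ Q, x ≠ y → dist x y = 1) :
    Q.card ≤ Module.finrank ℝ E + 1 := by
  classical
  rcases Q.eq_empty_or_nonempty with rfl | ⟨v, hv⟩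
  · simp
  set P := (Q.erase v).image (fun x => x - v) with hP
  have hPc : P.card = Q.card - 1 := by
    rw [hP, Finset.card_image_of_injective _ sub_left_injective, Finset.card_erase_of_mem hv]
  have hn : ∀ x ∈ Q, ∀ y ∈ Q, x ≠ y → ‖x - y‖ = 1 := fun x hx y hy hxy => by
    rw [← dist_eq_norm]; exact h x hx y hy hxy
  have := indep_half (Q := P) (by
    intro x hx
    obtain ⟨y, hy, rfl⟩ := Finset.mem_image.1 hx
    rw [real_inner_self_eq_norm_sq, hn y (Finset.mem_of_mem_erase hy) v hv
      (Finset.ne_of_mem_erase hy)]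
    norm_num) (by
    intro x hx z hz hxz
    obtain ⟨y, hy, rfl⟩ := Finset.mem_image.1 hx
    obtain ⟨w, hw, rfl⟩ := Finset.mem_image.1 hz
    have hyw : y ≠ w := fun hh => hxz (by rw [hh])
    have e := hn y (Finset.mem_of_mem_erase hy) w (Finset.mem_of_mem_erase hw) hyw
    have e1 := hn y (Finset.mem_of_mem_erase hy) v hv (Finset.ne_of_mem_erase hy)
    have e2 := hn w (Finset.mem_of_mem_erase hw) v hv (Finset.ne_of_mem_erase hw)
    have e3 : y - w = (y - v) - (w - v) := by abel
    have e4 : ‖y - w‖ ^ 2 = 1 := by rw [e]; norm_num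
    rw [e3, @norm_sub_sq_real, e1, e2] at e4
    linarith)
  rw [hPc] at this
  omega

end

/-- at most `2 d` nonzero vectors of a `d`-dimensional space have mutual inner products `≤ 0` -/
theorem obtuse : ∀ (d : ℕ) (E : Type) [NormedAddCommGroup E] [InnerProductSpace ℝ E]
    [FiniteDimensional ℝ E], Module.finrank ℝ E = d → ∀ Q : Finset E, (∀ x ∈ Q, x ≠ 0) →
    (∀ x ∈ Q, ∀ y ∈ Q, x ≠ y → ⟪x, y⟫_ℝ ≤ 0) → Q.card ≤ 2 * d := by
  classical
  intro d
  induction d with
  | zero =>
    intro E _ _ _ hE Q h0 h1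
    rcases Q.eq_empty_or_nonempty with rfl | ⟨v, hv⟩
    · simp
    · exact absurd (Module.finrank_zero_iff.1 hE |>.elim v 0) (h0 v hv)
  | succ d ih =>
    intro E _ _ _ hE Q h0 h1
    rcases Q.eq_empty_or_nonempty with rfl | ⟨v, hv⟩
    · simp
    have hv0 := h0 v hv
    have hfr : Module.finrank ℝ (↥(ℝ ∙ v)ᗮ) = d := by
      have : Fact (Module.finrank ℝ E = d + 1) := ⟨hE⟩
      exact Submodule.finrank_orthogonal_span_singleton hv0
    set K : Submodule ℝ E := (ℝ ∙ v)ᗮ with hK
    set f : E → K := fun x => K.orthogonalProjectionOnto x with hf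
    have hfx : ∀ x : E, ((f x : K) : E) = x - (⟪v, x⟫_ℝ / ‖v‖ ^ 2) • v := by
      intro x
      have h2 := Submodule.starProjection_orthogonal_val (K := ℝ ∙ v) x
      have h3 := Submodule.starProjection_singleton ℝ (v := v) x
      simp only [hf]
      rw [Submodule.coe_orthogonalProjectionOnto_apply, h2, h3]
      simp
    have hin : ∀ x y : E, ⟪f x, f y⟫_ℝ = ⟪x, y⟫_ℝ - ⟪v, x⟫_ℝ * ⟪v, y⟫_ℝ / ‖v‖ ^ 2 := by
      intro x y
      have hvv : ‖v‖ ^ 2 ≠ 0 := by positivity
      rw [Submodule.coe_inner, hfx, hfx, inner_sub_left, inner_sub_right, inner_sub_right,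
        real_inner_smul_left, real_inner_smul_left, real_inner_smul_right, real_inner_smul_right,
        real_inner_self_eq_norm_sq, real_inner_comm x v]
      field_simp
      ring
    have hin0 : ∀ x ∈ Q.erase v, ∀ y ∈ Q.erase v, x ≠ y → ⟪f x, f y⟫_ℝ ≤ 0 := by
      intro x hx y hy hxy
      rw [hin]
      have a1 := h1 v hv x (Finset.mem_of_mem_erase hx) (Finset.ne_of_mem_erase hx).symm
      have a2 := h1 v hv y (Finset.mem_of_mem_erase hy) (Finset.ne_of_mem_erase hy).symm
      have a3 := h1 x (Finset.mem_of_mem_erase hx) y (Finset.mem_of_mem_erase hy) hxy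
      have a4 : 0 ≤ ⟪v, x⟫_ℝ * ⟪v, y⟫_ℝ / ‖v‖ ^ 2 :=
        div_nonneg (mul_nonneg_of_nonpos_of_nonpos a1 a2) (by positivity)
      linarith
    -- at most one vector of `Q.erase v` projects to zero
    set Z := (Q.erase v).filter (fun x => f x = 0) with hZ
    have hZ1 : Z.card ≤ 1 := by
      rw [Finset.card_le_one]
      intro x hx y hy
      by_contra hxy
      obtain ⟨hx1, hx2⟩ := Finset.mem_filter.1 hx
      obtain ⟨hy1, hy2⟩ := Finset.mem_filter.1 hy
      have b1 := hfx x
      have b2 := hfx y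
      rw [hx2, ZeroMemClass.coe_zero] at b1
      rw [hy2, ZeroMemClass.coe_zero] at b2
      have c1 : x = (⟪v, x⟫_ℝ / ‖v‖ ^ 2) • v := (sub_eq_zero.1 b1.symm)
      have c2 : y = (⟪v, y⟫_ℝ / ‖v‖ ^ 2) • v := (sub_eq_zero.1 b2.symm)
      have a1 := h1 v hv x (Finset.mem_of_mem_erase hx1) (Finset.ne_of_mem_erase hx1).symm
      have a2 := h1 v hv y (Finset.mem_of_mem_erase hy1) (Finset.ne_of_mem_erase hy1).symm
      have a3 := h1 x (Finset.mem_of_mem_erase hx1) y (Finset.mem_of_mem_erase hy1) hxy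
      have d1 : ⟪v, x⟫_ℝ ≠ 0 := by
        intro hh
        rw [hh, zero_div, zero_smul] at c1
        exact h0 x (Finset.mem_of_mem_erase hx1) c1
      have d2 : ⟪v, y⟫_ℝ ≠ 0 := by
        intro hh
        rw [hh, zero_div, zero_smul] at c2
        exact h0 y (Finset.mem_of_mem_erase hy1) c2
      have e : ⟪x, y⟫_ℝ = ⟪v, x⟫_ℝ * ⟪v, y⟫_ℝ / ‖v‖ ^ 2 := by
        conv_lhs => rw [c1]
        rw [real_inner_smul_left]
        ring
      have hvp : 0 < ‖v‖ ^ 2 := by positivity
      have : 0 < ⟪v, x⟫_ℝ * ⟪v, y⟫_ℝ / ‖v‖ ^ 2 :=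
        div_pos (mul_pos_of_neg_of_neg (lt_of_le_of_ne a1 d1) (lt_of_le_of_ne a2 d2)) hvp
      linarith
    set M := (Q.erase v).filter (fun x => ¬ f x = 0) with hM
    have hcard : Z.card + M.card + 1 = Q.card := by
      rw [hZ, hM, Finset.card_filter_add_card_filter_not, Finset.card_erase_of_mem hv]
      have : 0 < Q.card := Finset.card_pos.2 ⟨v, hv⟩
      omega
    have hinj : Set.InjOn f M := by
      intro x hx y hy hxy
      by_contra hne
      obtain ⟨hx1, hx2⟩ := Finset.mem_filter.1 hx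
      obtain ⟨hy1, hy2⟩ := Finset.mem_filter.1 hy
      have := hin0 x hx1 y hy1 hne
      rw [← hxy, real_inner_self_eq_norm_sq] at this
      have h5 : 0 < ‖f x‖ := norm_pos_iff.2 hx2
      nlinarith
    have h6 := ih K hfr (M.image f) (by
      intro x hx
      obtain ⟨y, hy, rfl⟩ := Finset.mem_image.1 hx
      exact (Finset.mem_filter.1 hy).2) (by
      intro x hx z hz hxz
      obtain ⟨y, hy, rfl⟩ := Finset.mem_image.1 hx
      obtain ⟨w, hw, rfl⟩ := Finset.mem_image.1 hz
      exact hin0 y (Finset.mem_filter.1 hy).1 w (Finset.mem_filter.1 hw).1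
        (fun h => hxz (by rw [h])))
    rw [Finset.card_image_of_injOn hinj] at h6
    omega

end Pool.Agent.TH220.NT
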