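import Pool.Agent.TH220.NT.Num

/-! Kissing configurations with few pairs at distances in a given interval (for MP_b5f63d_co). -/

open Filter Set
open scoped Topology InnerProductSpace

namespace Pool.Agent.TH220.NT

open Classical in
/-- the points of `C` that have at most `κ` points of `C` at distance in `(α, β)` -/
noncomputable def fewMid {n : ℕ} (C : Finset (EuclideanSpace ℝ (Fin n))) (α β : ℝ) (κ : ℕ) :
    Finset (EuclideanSpace ℝ (Fin n)) :=
  C.filter (fun x => (C.filter (fun y => α < dist x y ∧ dist x y < β)).card ≤ κ)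

theorem kiss_le {n : ℕ} {α β : ℝ} (hα : 1 ≤ α) (hαβ : α < β) {k a m : ℕ} (hk : 1 ≤ k)
    (hclique : ∀ Q : Finset (EuclideanSpace ℝ (Fin n)),
      (∀ x ∈ Q, ∀ y ∈ Q, x ≠ y → 1 ≤ dist x y ∧ dist x y ≤ α) → Q.card ≤ a)
    (hm : β ^ 2 < (m + 1) * (β ^ 2 - (2 * α ^ 2 - 1 + 1 / k)))
    {C : Finset (EuclideanSpace ℝ (Fin n))} (h1 : ∀ x ∈ C, ‖x‖ = 1)
    (h2 : ∀ x ∈ C, ∀ y ∈ C, x ≠ y → ⟪x, y⟫_ℝ ≤ 1 / 2) (κ : ℕ) :
    (fewMid C α β κ).card ≤ (κ + 1) *
      ((∏ i ∈ Finset.Ico 1 k, 2 * codeMax (n + 1) (cosB α β i)) * (a + m).choose a) := by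
  classical
  have hdist : ∀ x ∈ C, ∀ y ∈ C, x ≠ y → 1 ≤ dist x y := by
    intro x hx y hy hxy
    have h3 := h2 x hx y hy hxy
    have h4 : ‖x - y‖ ^ 2 = 2 - 2 * ⟪x, y⟫_ℝ := by
      rw [@norm_sub_sq_real, h1 x hx, h1 y hy]
      ring
    rw [dist_eq_norm]
    by_contra hcon
    push Not at hcon
    have : ‖x - y‖ ^ 2 < 1 := by nlinarith [norm_nonneg (x - y)]
    linarith
  have hsub : ∀ x ∈ fewMid C α β κ, x ∈ C := fun x hx => (Finset.mem_filter.1 hx).1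
  rw [mul_comm]
  apply greedy (fun x y => α < dist x y ∧ dist x y < β) (fun x y h => by rwa [dist_comm])
  · intro Q hQ hq
    have h5 := chain (n := n) hα hαβ hk hclique hm (k - 1) 1 le_rfl (by omega) {0} Q
      (Finset.card_singleton _)
      (by
        intro t ht t' ht' htt
        rw [Finset.mem_singleton] at ht ht'
        exact absurd (ht.trans ht'.symm) htt)
      (by
        intro y hy t ht
        rw [Finset.mem_singleton] at ht
        rw [ht, dist_zero_right, h1 y (hsub y (hQ hy))]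
        exact ⟨le_rfl, hα⟩)
      (by
        intro y hy z hz hyz
        refine ⟨hdist y (hsub y (hQ hy)) z (hsub z (hQ hz)) hyz, ?_⟩
        have := hq y hy z hz hyz
        by_contra hcon
        push Not at hcon
        exact this hcon)
    omega
  · intro q hq
    have h6 := (Finset.mem_filter.1 hq).2
    have h7 : (((fewMid C α β κ).erase q).filter (fun y => α < dist q y ∧ dist q y < β)).card ≤
        (C.filter (fun y => α < dist q y ∧ dist q y < β)).card := by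
      apply Finset.card_le_card
      intro y hy
      rw [Finset.mem_filter] at hy ⊢
      exact ⟨hsub y (Finset.mem_of_mem_erase hy.1), hy.2⟩
    omega

theorem kiss_num {α β : ℝ} (hα : 1 ≤ α) (hαβ : α < β) {k J m : ℕ} (hk : 1 ≤ k) (hJ : 1 ≤ J)
    (hm : β ^ 2 < (m + 1) * (β ^ 2 - (2 * α ^ 2 - 1 + 1 / k)))
    (v : ℕ → ℝ) {v0 : ℝ}
    (hv : ∀ i ∈ Finset.Ico 1 k, 0 < v i ∧
      cosB α β i ^ 2 * (1 + 2 * v i) ^ 2 < 4 * v i * (1 + v i))
    (hv0 : 0 < v0) (hv0' : cosB α 1 J ^ 2 * (1 + 2 * v0) ^ 2 < 4 * v0 * (1 + v0)) {δ : ℝ}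
    (hγ : ∑ i ∈ Finset.Ico 1 k, G (v i) + m * G v0 < δ * Real.log 2) :
    ∀ᶠ n : ℕ in atTop, ∀ (C : Finset (EuclideanSpace ℝ (Fin n))) (κ : ℕ), (∀ x ∈ C, ‖x‖ = 1) →
      (∀ x ∈ C, ∀ y ∈ C, x ≠ y → ⟪x, y⟫_ℝ ≤ 1 / 2) →
      ((fewMid C α β κ).card : ℝ) ≤ (κ + 1) * (2 : ℝ) ^ (δ * n) := by
  filter_upwards [D_asym hα v hv hv0 hv0' hγ] with n hn C κ h1 h2
  have h3 := kiss_le hα hαβ hk (fun Q hQ => clique_gen hα hJ Q hQ) hm h1 h2 κ
  have h4 : (2 : ℝ) ^ (δ * n) = Real.exp (n * (δ * Real.log 2)) := by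
    rw [Real.rpow_def_of_pos two_pos]
    congr 1
    ring
  rw [h4]
  calc ((fewMid C α β κ).card : ℝ) ≤ (((κ + 1) *
      ((∏ i ∈ Finset.Ico 1 k, 2 * codeMax (n + 1) (cosB α β i)) *
        (J + codeMax (n + 1) (cosB α 1 J) + m).choose (J + codeMax (n + 1) (cosB α 1 J))) : ℕ) : ℝ) := by
        exact_mod_cast h3
    _ = (κ + 1) * (((∏ i ∈ Finset.Ico 1 k, 2 * codeMax (n + 1) (cosB α β i)) *
        (J + codeMax (n + 1) (cosB α 1 J) + m).choose (J + codeMax (n + 1) (cosB α 1 J)) : ℕ) : ℝ) := by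
        push_cast; ring
    _ ≤ _ := mul_le_mul_of_nonneg_left hn (by positivity)

theorem kiss_A : ∀ᶠ n : ℕ in atTop, ∀ (C : Finset (EuclideanSpace ℝ (Fin n))) (κ : ℕ),
    (∀ x ∈ C, ‖x‖ = 1) → (∀ x ∈ C, ∀ y ∈ C, x ≠ y → ⟪x, y⟫_ℝ ≤ 1 / 2) →
    ((fewMid C (501 / 500) (6 / 5) κ).card : ℝ) ≤ (κ + 1) * (2 : ℝ) ^ (17 / 100 * n : ℝ) := by
  apply kiss_num (k := 3) (J := 200) (m := 14) (by norm_num) (by norm_num) (by norm_num)
    (by norm_num) (by norm_num) (fun i => if i = 1 then 214 / 10000 else 52 / 100000)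
    (v0 := 42 / 1000000)
  · intro i hi
    rw [Finset.mem_Ico] at hi
    obtain rfl | rfl : i = 1 ∨ i = 2 := by omega
    · unfold cosB; norm_num
    · unfold cosB; norm_num
  · norm_num
  · unfold cosB; norm_num
  · have e : ∑ i ∈ Finset.Ico 1 3, G ((fun i => if i = 1 then (214 / 10000 : ℝ) else 52 / 100000) i)
        = G (214 / 10000) + G (52 / 100000) := by
      rw [Finset.sum_Ico_succ_top (by norm_num), Finset.sum_Ico_succ_top (by norm_num)]
      simp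
    rw [e]
    have h1 := G_le (v := 214 / 10000) (by norm_num) (a := 9) (b := 50) (by norm_num)
      (by norm_num)
    have h2 := G_le (v := 52 / 100000) (by norm_num) (a := 1) (b := 11) (by norm_num) (by norm_num)
    have h3 := G_le (v := 42 / 1000000) (by norm_num) (a := 5) (b := 73) (by norm_num)
      (by norm_num)
    have h5 := Real.log_two_gt_d9
    push_cast at h1 h2 h3 ⊢
    linarith

theorem kiss_B : ∀ᶠ n : ℕ in atTop, ∀ (C : Finset (EuclideanSpace ℝ (Fin n))) (κ : ℕ),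
    (∀ x ∈ C, ‖x‖ = 1) → (∀ x ∈ C, ∀ y ∈ C, x ≠ y → ⟪x, y⟫_ℝ ≤ 1 / 2) →
    ((fewMid C (201 / 200) (√2) κ).card : ℝ) ≤ (κ + 1) * (2 : ℝ) ^ (13 / 1000 * n : ℝ) := by
  have h2 : (√2 : ℝ) ^ 2 = 2 := Real.sq_sqrt (by norm_num)
  apply kiss_num (k := 2) (J := 100) (m := 4) (by norm_num) _ (by norm_num)
    (by norm_num) _ (fun _ => 1 / 40000) (v0 := 22 / 100000)
  · intro i hi
    rw [Finset.mem_Ico] at hi
    obtain rfl : i = 1 := by omega
    unfold cosB
    rw [h2]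
    norm_num
  · norm_num
  · unfold cosB; norm_num
  · have e : ∑ i ∈ Finset.Ico 1 2, G ((fun (_ : ℕ) => (1 / 40000 : ℝ)) i) = G (1 / 40000) := by
      rw [Finset.sum_Ico_succ_top (by norm_num)]
      simp
    rw [e]
    have h1 := G_le (v := 1 / 40000) (by norm_num) (a := 1) (b := 16) (by norm_num)
      (by norm_num)
    have h3 := G_le (v := 22 / 100000) (by norm_num) (a := 5) (b := 61) (by norm_num)
      (by norm_num)
    have h5 := Real.log_two_gt_d9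
    push_cast at h1 h3 ⊢
    linarith
  · apply Real.lt_sqrt_of_sq_lt
    norm_num
  · rw [h2]
    norm_num

theorem kiss_C {n : ℕ} {C : Finset (EuclideanSpace ℝ (Fin n))} (h1 : ∀ x ∈ C, ‖x‖ = 1)
    (h2 : ∀ x ∈ C, ∀ y ∈ C, x ≠ y → ⟪x, y⟫_ℝ ≤ 1 / 2) (κ : ℕ) :
    (fewMid C 1 (√2) κ).card ≤ (κ + 1) * (4 * (n + 1) * (n + 5).choose 4) := by
  have hs : (√2 : ℝ) ^ 2 = 2 := Real.sq_sqrt (by norm_num)
  have h := kiss_le (α := 1) (β := √2) (k := 2) (a := n + 1) (m := 4) le_rfl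
    (Real.lt_sqrt_of_sq_lt (by norm_num)) (by norm_num) (fun Q hQ => clique_one Q hQ)
    (by rw [hs]; norm_num) h1 h2 κ
  refine h.trans (Nat.mul_le_mul_left _ ?_)
  have e2 : ∏ i ∈ Finset.Ico 1 2, 2 * codeMax (n + 1) (cosB 1 (√2) i)
      = 2 * codeMax (n + 1) 0 := by
    rw [Finset.prod_Ico_succ_top (by norm_num)]
    simp only [Finset.Ico_self, Finset.prod_empty, one_mul]
    congr 2
    unfold cosB
    rw [hs]
    norm_num
  rw [e2]
  have e3 := codeMax_zero (n + 1)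
  have e4 : (n + 1 + 4).choose (n + 1) = (n + 5).choose 4 := by
    rw [Nat.choose_symm_add]
  rw [e4]
  apply Nat.mul_le_mul_right
  omega

end Pool.Agent.TH220.NT
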