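import Pool.Agent.TH220.NT.Chain
import Pool.Agent.TH220.NT.Dens

/-! The balls of a packing with few balls at distance in a given interval (for MP_dbfdb2_gt). -/

open MeasureTheory Metric Filter Set
open scoped Topology Pointwise
open Pool.Agent.H818R2

namespace Pool.Agent.TH220.NT

/-- the centres of `X` that have at most `κ` centres of `X` at distance in `(2 α r, 2 β r)` -/
def fewNear {n : ℕ} (X : Set (EuclideanSpace ℝ (Fin n))) (r α β : ℝ) (κ : ℕ) :
    Set (EuclideanSpace ℝ (Fin n)) :=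
  {x ∈ X | {y ∈ X | 2 * α * r < dist x y ∧ dist x y < 2 * β * r}.encard ≤ κ}

theorem packing_subset {n : ℕ} {X Y : Set (EuclideanSpace ℝ (Fin n))} {r : ℝ}
    (hX : IsPacking X r) (h : Y ⊆ X) : IsPacking Y r :=
  ⟨hX.1, hX.2.subset h⟩

theorem packing_iff {n : ℕ} {X : Set (EuclideanSpace ℝ (Fin n))} {r : ℝ} (hr : 0 < r) :
    IsPacking X r ↔ ∀ x ∈ X, ∀ y ∈ X, x ≠ y → 2 * r ≤ dist x y := by
  constructor
  · intro h x hx y hy hxy
    have := h.2 hx hy hxy
    simp only [Function.onFun] at this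
    rw [disjoint_ball_ball_iff hr hr] at this
    linarith
  · intro h
    refine ⟨hr, fun x hx y hy hxy => ?_⟩
    simp only [Function.onFun]
    rw [disjoint_ball_ball_iff hr hr]
    linarith [h x hx y hy hxy]

/-- the chain bound for the number of points near a point of a packing with a gap -/
theorem deg_le {n : ℕ} {α β : ℝ} (hα : 1 ≤ α) (hαβ : α < β) {k a m : ℕ} (hk : 1 ≤ k)
    (hclique : ∀ Q : Finset (EuclideanSpace ℝ (Fin n)),
      (∀ x ∈ Q, ∀ y ∈ Q, x ≠ y → 1 ≤ dist x y ∧ dist x y ≤ α) → Q.card ≤ a)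
    (hm : β ^ 2 < (m + 1) * (β ^ 2 - (2 * α ^ 2 - 1 + 1 / k)))
    {Y : Set (EuclideanSpace ℝ (Fin n))} {r : ℝ} (hY : IsPacking Y r)
    (hgap : ∀ x ∈ Y, ∀ y ∈ Y, x ≠ y → ¬ (2 * α * r < dist x y ∧ dist x y < 2 * β * r))
    {x : EuclideanSpace ℝ (Fin n)} (hx : x ∈ Y) {F : Finset (EuclideanSpace ℝ (Fin n))}
    (hF : ∀ y ∈ F, y ∈ Y ∧ y ≠ x ∧ dist x y < 2 * β * r) :
    F.card + 1 ≤ (∏ i ∈ Finset.Ico 1 k, 2 * codeMax (n + 1) (cosB α β i)) *
      (a + m).choose a := by
  classical
  have hr := hY.1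
  have hr2 : 0 < 2 * r := by linarith
  have hsep := (packing_iff hr).1 hY
  set f : EuclideanSpace ℝ (Fin n) → EuclideanSpace ℝ (Fin n) := fun y => (2 * r)⁻¹ • y with hf
  have hfi : Function.Injective f := smul_right_injective _ (inv_pos.2 hr2).ne'
  have hfd : ∀ u v, dist (f u) (f v) = dist u v / (2 * r) := by
    intro u v
    simp only [hf]
    rw [dist_smul₀, Real.norm_of_nonneg (inv_pos.2 hr2).le]
    field_simp
  have hnear : ∀ u ∈ Y, ∀ v ∈ Y, u ≠ v → 1 ≤ dist (f u) (f v) ∧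
      (dist (f u) (f v) ≤ α ∨ β ≤ dist (f u) (f v)) := by
    intro u hu v hv huv
    have h1 := hsep u hu v hv huv
    have h2 := hgap u hu v hv huv
    rw [hfd]
    refine ⟨by rw [le_div_iff₀ hr2]; linarith, ?_⟩
    by_contra hcon
    push Not at hcon
    obtain ⟨c1, c2⟩ := hcon
    rw [lt_div_iff₀ hr2] at c1
    rw [div_lt_iff₀ hr2] at c2
    exact h2 ⟨by linarith, by linarith⟩
  have h := chain (n := n) hα hαβ hk hclique hm (k - 1) 1 le_rfl (by omega) {f x} (F.image f)
    (Finset.card_singleton _)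
    (by
      intro t ht t' ht' htt
      rw [Finset.mem_singleton] at ht ht'
      exact absurd (ht.trans ht'.symm) htt)
    (by
      intro y hy t ht
      rw [Finset.mem_singleton] at ht
      obtain ⟨u, hu, rfl⟩ := Finset.mem_image.1 hy
      obtain ⟨h1, h2, h3⟩ := hF u hu
      have h4 := hnear u h1 x hx h2
      rw [ht]
      refine ⟨h4.1, ?_⟩
      rcases h4.2 with h5 | h5
      · exact h5
      · rw [hfd, le_div_iff₀ hr2, dist_comm] at h5
        linarith)
    (by
      intro y hy z hz hyz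
      obtain ⟨u, hu, rfl⟩ := Finset.mem_image.1 hy
      obtain ⟨v, hv, rfl⟩ := Finset.mem_image.1 hz
      exact hnear u (hF u hu).1 v (hF v hv).1 (fun e => hyz (by rw [e])))
  rwa [Finset.card_image_of_injective _ hfi] at h

/-- the density bound, for an arbitrary bound `a` of the near-cliques -/
theorem few_le {n : ℕ} {α β : ℝ} (hα : 1 ≤ α) (hαβ : α < β) {k a m : ℕ} (hk : 1 ≤ k)
    (hclique : ∀ Q : Finset (EuclideanSpace ℝ (Fin n)),
      (∀ x ∈ Q, ∀ y ∈ Q, x ≠ y → 1 ≤ dist x y ∧ dist x y ≤ α) → Q.card ≤ a)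
    (hm : β ^ 2 < (m + 1) * (β ^ 2 - (2 * α ^ 2 - 1 + 1 / k)))
    {X : Set (EuclideanSpace ℝ (Fin n))} {r : ℝ} (hX : IsPacking X r) (κ : ℕ) :
    upperDensity (fewNear X r α β κ) r ≤ (κ + 1) *
      ((∏ i ∈ Finset.Ico 1 k, 2 * codeMax (n + 1) (cosB α β i)) * (a + m).choose a : ℕ) *
      (1 / β) ^ n * rho n := by
  classical
  have hr := hX.1
  have hβ : 0 < β := by linarith
  set D : ℕ := (∏ i ∈ Finset.Ico 1 k, 2 * codeMax (n + 1) (cosB α β i)) * (a + m).choose a with hD
  set Y := fewNear X r α β κ with hY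
  have hYX : Y ⊆ X := fun x hx => hx.1
  have hYp := packing_subset hX hYX
  -- first step
  obtain ⟨Z, hZY, hZ1, hZ2⟩ := thin (X := Y) (finite_of_packing hYp)
    (fun x y => 2 * α * r < dist x y ∧ dist x y < 2 * β * r)
    (fun x y h => by rwa [dist_comm]) (C := 2 * β * r) (by positivity)
    (fun x y h => h.2.le) κ
    (fun X' hX' _ x hx => by
      refine le_trans (encard_le_encard ?_) (hX' hx).2
      rintro y ⟨h1, _, h3⟩
      exact ⟨hYX h1, h3⟩)
  have hZp := packing_subset hYp hZY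
  have hfinN : ∀ x ∈ Z, {y ∈ Z | y ≠ x ∧ dist x y < 2 * β * r}.encard ≤ ((D - 1 : ℕ) : ℕ∞) := by
    intro x hx
    by_contra hcon
    push Not at hcon
    have h1 : ((D - 1 + 1 : ℕ) : ℕ∞) ≤ {y ∈ Z | y ≠ x ∧ dist x y < 2 * β * r}.encard := by
      push_cast
      exact Order.add_one_le_of_lt hcon
    obtain ⟨t, ht1, ht2⟩ := exists_subset_encard_eq h1
    have htf : t.Finite := finite_of_encard_eq_coe ht2
    have h3 := deg_le hα hαβ hk hclique hm hZp hZ1 hx (F := htf.toFinset)
      (fun y hy => ht1 (htf.mem_toFinset.1 hy))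
    rw [← hD] at h3
    have h4 : htf.toFinset.card = D - 1 + 1 := by
      rw [htf.encard_eq_coe_toFinset_card] at ht2
      exact_mod_cast ht2
    omega
  -- second step
  obtain ⟨W, hWZ, hW1, hW2⟩ := thin (X := Z) (finite_of_packing hZp)
    (fun x y => dist x y < 2 * β * r)
    (fun x y h => by rwa [dist_comm]) (C := 2 * β * r) (by positivity)
    (fun x y h => h.le) (D - 1)
    (fun X' hX' _ x hx => hfinN x (hX' hx))
  have hWp : IsPacking W (β * r) := by
    rw [packing_iff (by positivity)]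
    intro x hx y hy hxy
    have := hW1 x hx y hy hxy
    push Not at this
    linarith
  have hD1 : 1 ≤ D := by
    rw [hD]
    apply Nat.mul_pos
    · apply Finset.prod_pos
      intro i _
      have := codeMax_pos (n := n + 1) (Nat.succ_pos n) (cosB_lt hα hβ i)
      omega
    · exact Nat.choose_pos (Nat.le_add_right a m)
  have hDr : ((D - 1 : ℕ) : ℝ) + 1 = D := by
    rw [Nat.cast_sub hD1]; simp
  rw [hDr] at hW2
  have h5 := dens_le hYp hWp (K := (κ + 1) * D) (C := 2 * β * r + 2 * β * r) (by positivity)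
    (by positivity) (fun T => by
      have a1 := hZ2 T
      have a2 := hW2 (T + 2 * β * r)
      rw [add_assoc] at a2
      calc _ ≤ _ := a1
        _ ≤ ((κ : ℝ) + 1) * (D * (W ∩ closedBall 0 (T + (2 * β * r + 2 * β * r))).ncard) :=
            mul_le_mul_of_nonneg_left a2 (by positivity)
        _ = _ := by ring)
  rw [finrank_euclideanSpace_fin] at h5
  have h6 : r / (β * r) = 1 / β := by field_simp
  rw [h6] at h5
  refine h5.trans ?_
  apply mul_le_mul_of_nonneg_left _ (by positivity)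
  exact le_optDensity hWp

end Pool.Agent.TH220.NT
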